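import Mathlib

/-!
# Analytic core for problem MP_7e3c50_an

Energy identity for `A z' = F` with `z` merely bounded and measurable, dissipation, and the
bound of difference quotients which yields pointwise exponential convergence.
-/

set_option autoImplicit false

open MeasureTheory Set Filter Topology RCLike
open scoped InnerProductSpace

namespace Pool.Agent.Lib.MP_7e3c50_an

section Energy

variable {𝕜 : Type*} [RCLike 𝕜] {H : Type*} [NormedAddCommGroup H] [InnerProductSpace 𝕜 H]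

/-- polarization of the energy -/
lemma energy_sub (A : H →L[𝕜] H) (hA : ∀ x y, ⟪A x, y⟫_𝕜 = ⟪x, A y⟫_𝕜) (x y : H) :
    re ⟪A x, x⟫_𝕜 - re ⟪A y, y⟫_𝕜 = re ⟪A x - A y, x + y⟫_𝕜 := by
  have h1 : re ⟪A x, y⟫_𝕜 = re ⟪A y, x⟫_𝕜 := by
    rw [hA x y, ← inner_conj_symm, conj_re]
  simp only [inner_sub_left, inner_add_right, map_sub, map_add]
  linarith

variable [CompleteSpace H] [NormedSpace ℝ H] [IsScalarTower ℝ 𝕜 H]

/-- Local integrability of bounded measurable functions. -/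
lemma locInt_of_bdd {E : Type*} [NormedAddCommGroup E] {f : ℝ → E} {M : ℝ}
    (hf : AEStronglyMeasurable f volume) (hM : ∀ t, ‖f t‖ ≤ M) :
    LocallyIntegrable f volume := by
  rw [locallyIntegrable_iff]
  intro K hK
  refine Measure.integrableOn_of_bounded (M := M) hK.measure_lt_top.ne hf ?_
  exact Eventually.of_forall hM

lemma intInt_of_bdd {E : Type*} [NormedAddCommGroup E] {f : ℝ → E} {M : ℝ}
    (hf : AEStronglyMeasurable f volume) (hM : ∀ t, ‖f t‖ ≤ M) (a b : ℝ) :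
    IntervalIntegrable f volume a b := by
  rw [intervalIntegrable_iff]
  exact Measure.integrableOn_of_bounded (M := M) (by simp) hf (Eventually.of_forall hM)

lemma int_mono_ae {f g : ℝ → ℝ} {a b : ℝ} (hab : a ≤ b)
    (hf : IntervalIntegrable f volume a b) (hg : IntervalIntegrable g volume a b)
    (h : ∀ᵐ t, a ≤ t → t ≤ b → f t ≤ g t) :
    ∫ t in a..b, f t ≤ ∫ t in a..b, g t := by
  apply intervalIntegral.integral_mono_ae_restrict hab hf hg
  rw [EventuallyLE, ae_restrict_iff' measurableSet_Icc]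
  filter_upwards [h] with t ht htab
  exact ht htab.1 htab.2

lemma energy_identity (A : H →L[𝕜] H) (hA : ∀ x y, ⟪A x, y⟫_𝕜 = ⟪x, A y⟫_𝕜)
    {z F G : ℝ → H} {M L : ℝ}
    (hz : AEStronglyMeasurable z volume) (hzM : ∀ t, ‖z t‖ ≤ M)
    (hF : AEStronglyMeasurable F volume) (hFL : ∀ t, ‖F t‖ ≤ L)
    (hG : ∀ t, G t = G 0 + ∫ s in (0:ℝ)..t, F s)
    (hGA : ∀ᵐ t, 0 ≤ t → G t = A (z t)) :
    ∃ S : Set ℝ, (∀ᵐ t, t ∈ S) ∧ ∀ a ∈ S, ∀ b ∈ S, 0 ≤ a → a ≤ b →
      re ⟪A (z b), z b⟫_𝕜 - re ⟪A (z a), z a⟫_𝕜 = ∫ t in a..b, 2 * re ⟪F t, z t⟫_𝕜 := by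
  have hM0 : 0 ≤ M := (norm_nonneg _).trans (hzM 0)
  have hL0 : 0 ≤ L := (norm_nonneg _).trans (hFL 0)
  have hzi := fun a b => intInt_of_bdd hz hzM a b
  have hFi := fun a b => intInt_of_bdd hF hFL a b
  -- continuity and Lipschitz property of `G`
  have hGsub : ∀ s t, G t - G s = ∫ r in s..t, F r := by
    intro s t
    rw [hG t, hG s, add_sub_add_left_eq_sub]
    exact intervalIntegral.integral_interval_sub_left (hFi _ _) (hFi _ _)
  have hGlip : ∀ s t, ‖G t - G s‖ ≤ L * |t - s| := by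
    intro s t
    rw [hGsub]
    exact intervalIntegral.norm_integral_le_of_norm_le_const (fun r _ => hFL r)
  have hGcont : Continuous G := by
    have : LipschitzWith (Real.toNNReal L) G := by
      apply LipschitzWith.of_dist_le_mul
      intro s t
      rw [dist_eq_norm, Real.coe_toNNReal _ hL0, Real.dist_eq]
      exact hGlip t s
    exact this.continuous
  have hGint := fun a b => hGcont.intervalIntegrable (μ := volume) a b
  -- primitives
  set Iz : ℝ → H := fun t => ∫ s in (0:ℝ)..t, z s with hIz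
  set IG : ℝ → H := fun t => ∫ s in (0:ℝ)..t, G s with hIG
  have hIzlip : ∀ s t, ‖Iz t - Iz s‖ ≤ M * |t - s| := by
    intro s t
    have : Iz t - Iz s = ∫ r in s..t, z r :=
      intervalIntegral.integral_interval_sub_left (hzi _ _) (hzi _ _)
    rw [this]
    exact intervalIntegral.norm_integral_le_of_norm_le_const (fun r _ => hzM r)
  have hIzcont : Continuous Iz := by
    have : LipschitzWith (Real.toNNReal M) Iz := by
      apply LipschitzWith.of_dist_le_mul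
      intro s t
      rw [dist_eq_norm, Real.coe_toNNReal _ hM0, Real.dist_eq]
      exact hIzlip t s
    exact this.continuous
  have hIGd : ∀ t, HasDerivAt IG (G t) t := fun t =>
    intervalIntegral.integral_hasDerivAt_right (hGint _ _)
      (hGcont.stronglyMeasurableAtFilter _ _) hGcont.continuousAt
  -- the good set
  have hzd := _root_.LocallyIntegrable.ae_hasDerivAt_integral (locInt_of_bdd hz hzM)
  have hFd := _root_.LocallyIntegrable.ae_hasDerivAt_integral (locInt_of_bdd hF hFL)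
  refine ⟨{t | HasDerivAt Iz (z t) t}, ?_, ?_⟩
  · filter_upwards [hzd] with t ht
    exact ht 0
  intro a ha b hb ha0 hab
  simp only [mem_ofPred_eq] at ha hb
  -- Steklov averages
  set k : ℕ → ℝ := fun n => 1 / ((n:ℝ) + 1) with hk
  have hkpos : ∀ n, 0 < k n := fun n => by positivity
  have hk0 : Tendsto k atTop (𝓝 0) := tendsto_one_div_add_atTop_nhds_zero_nat
  have hk0' : Tendsto k atTop (𝓝[≠] 0) := by
    rw [tendsto_nhdsWithin_iff]
    exact ⟨hk0, Eventually.of_forall fun n => (hkpos n).ne'⟩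
  set U : ℕ → ℝ → H := fun n t => (k n)⁻¹ • (Iz (t + k n) - Iz t) with hU
  set W : ℕ → ℝ → H := fun n t => (k n)⁻¹ • (IG (t + k n) - IG t) with hW
  set W' : ℕ → ℝ → H := fun n t => (k n)⁻¹ • (G (t + k n) - G t) with hW'
  have hUcont : ∀ n, Continuous (U n) := by
    intro n
    have h1 : Continuous fun t => Iz (t + k n) := hIzcont.comp (continuous_add_const _)
    exact (h1.sub hIzcont).const_smul _
  have hUbd : ∀ n t, ‖U n t‖ ≤ M := by
    intro n t
    simp only [hU]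
    rw [norm_smul, Real.norm_of_nonneg (inv_nonneg.2 (hkpos n).le)]
    have := hIzlip t (t + k n)
    rw [add_sub_cancel_left, abs_of_pos (hkpos n)] at this
    rw [inv_mul_le_iff₀ (hkpos n)]
    linarith
  have hW'cont : ∀ n, Continuous (W' n) := by
    intro n
    have h1 : Continuous fun t => G (t + k n) := hGcont.comp (continuous_add_const _)
    exact (h1.sub hGcont).const_smul _
  have hW'bd : ∀ n t, ‖W' n t‖ ≤ L := by
    intro n t
    simp only [hW']
    rw [norm_smul, Real.norm_of_nonneg (inv_nonneg.2 (hkpos n).le)]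
    have := hGlip t (t + k n)
    rw [add_sub_cancel_left, abs_of_pos (hkpos n)] at this
    rw [inv_mul_le_iff₀ (hkpos n)]
    linarith
  have hWd : ∀ n t, HasDerivAt (W n) (W' n t) t := by
    intro n t
    have h1 : HasDerivAt (fun t => IG (t + k n)) (G (t + k n)) t :=
      (hIGd (t + k n)).comp_add_const t (k n)
    exact (h1.sub (hIGd t)).const_smul _
  have hAU : ∀ n t, 0 ≤ t → A (U n t) = W n t := by
    intro n t ht
    have h1 : Iz (t + k n) - Iz t = ∫ r in t..(t + k n), z r :=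
      intervalIntegral.integral_interval_sub_left (hzi _ _) (hzi _ _)
    have h2 : IG (t + k n) - IG t = ∫ r in t..(t + k n), G r :=
      intervalIntegral.integral_interval_sub_left (hGint _ _) (hGint _ _)
    simp only [hU, hW]
    rw [h1, h2]
    have h3 : A ((k n)⁻¹ • ∫ r in t..(t + k n), z r) = (k n)⁻¹ • A (∫ r in t..(t + k n), z r) := by
      have := (A.restrictScalars ℝ).map_smul (k n)⁻¹ (∫ r in t..(t + k n), z r)
      simp
    rw [h3]
    congr 1
    have h4 : A (∫ r in t..(t + k n), z r) = ∫ r in t..(t + k n), A (z r) := by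
      have := (A.restrictScalars ℝ).intervalIntegral_comp_comm (hzi t (t + k n))
      simpa using this.symm
    rw [h4]
    apply intervalIntegral.integral_congr_ae
    filter_upwards [hGA] with r hr hr'
    rw [uIoc_of_le (by linarith [hkpos n])] at hr'
    exact (hr (ht.trans hr'.1.le)).symm
  -- energies of the averages
  set e : ℕ → ℝ → ℝ := fun n t => re ⟪A (U n t), U n t⟫_𝕜 with he
  have hecont : ∀ n, Continuous (e n) := by
    intro n
    exact RCLike.continuous_re.comp ((A.continuous.comp (hUcont n)).inner (hUcont n))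
  have hed : ∀ n t, 0 < t → HasDerivAt (e n) (2 * re ⟪W' n t, U n t⟫_𝕜) t := by
    intro n t ht
    rw [hasDerivAt_iff_tendsto_slope]
    have h1 : Tendsto (slope (W n) t) (𝓝[≠] t) (𝓝 (W' n t)) :=
      hasDerivAt_iff_tendsto_slope.1 (hWd n t)
    have h2 : Tendsto (fun s => U n s + U n t) (𝓝[≠] t) (𝓝 (U n t + U n t)) :=
      (((hUcont n).tendsto t).mono_left nhdsWithin_le_nhds).add tendsto_const_nhds
    have h3 : Tendsto (fun s => re ⟪slope (W n) t s, U n s + U n t⟫_𝕜) (𝓝[≠] t)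
        (𝓝 (re ⟪W' n t, U n t + U n t⟫_𝕜)) :=
      (RCLike.continuous_re.tendsto _).comp (h1.inner h2)
    have h4 : re ⟪W' n t, U n t + U n t⟫_𝕜 = 2 * re ⟪W' n t, U n t⟫_𝕜 := by
      rw [inner_add_right, map_add]; ring
    rw [h4] at h3
    refine h3.congr' ?_
    have h5 : ∀ᶠ s in 𝓝[≠] t, 0 < s :=
      (eventually_gt_nhds ht).filter_mono nhdsWithin_le_nhds
    filter_upwards [h5] with s hs
    rw [slope_def_module, slope_def_module, smul_eq_mul]
    have h6 : e n s - e n t = re ⟪W n s - W n t, U n s + U n t⟫_𝕜 := by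
      simp only [he]
      rw [energy_sub A hA, hAU n s hs.le, hAU n t ht.le]
    rw [h6]
    have h7 : ⟪(s - t)⁻¹ • (W n s - W n t), U n s + U n t⟫_𝕜
        = (((s - t)⁻¹ : ℝ) : 𝕜) * ⟪W n s - W n t, U n s + U n t⟫_𝕜 := by
      rw [RCLike.real_smul_eq_coe_smul (K := 𝕜), inner_smul_left, conj_ofReal]
    rw [h7, re_ofReal_mul]
  have hcont1 : ∀ n, Continuous fun t => 2 * re ⟪W' n t, U n t⟫_𝕜 := fun n =>
    continuous_const.mul (RCLike.continuous_re.comp ((hW'cont n).inner (hUcont n)))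
  have hFTC : ∀ n, ∫ t in a..b, 2 * re ⟪W' n t, U n t⟫_𝕜 = e n b - e n a := by
    intro n
    apply intervalIntegral.integral_eq_sub_of_hasDerivAt_of_le hab (hecont n).continuousOn
    · intro t ht
      exact hed n t (ha0.trans_lt ht.1)
    · exact (hcont1 n).intervalIntegrable _ _
  -- limits
  have hUlim : ∀ t, HasDerivAt Iz (z t) t → Tendsto (fun n => U n t) atTop (𝓝 (z t)) := by
    intro t ht
    have := ht.tendsto_slope_zero
    exact this.comp hk0'
  have helim : ∀ t, HasDerivAt Iz (z t) t →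
      Tendsto (fun n => e n t) atTop (𝓝 (re ⟪A (z t), z t⟫_𝕜)) := by
    intro t ht
    have h1 := hUlim t ht
    exact (RCLike.continuous_re.tendsto _).comp (((A.continuous.tendsto _).comp h1).inner h1)
  have hlim : Tendsto (fun n => ∫ t in a..b, 2 * re ⟪W' n t, U n t⟫_𝕜) atTop
      (𝓝 (∫ t in a..b, 2 * re ⟪F t, z t⟫_𝕜)) := by
    apply intervalIntegral.tendsto_integral_filter_of_dominated_convergence (fun _ => 2 * (L * M))
    · exact Eventually.of_forall fun n => (hcont1 n).aestronglyMeasurable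
    · refine Eventually.of_forall fun n => Eventually.of_forall fun t _ => ?_
      rw [norm_mul, Real.norm_of_nonneg (by norm_num : (0:ℝ) ≤ 2)]
      have h1 : ‖re ⟪W' n t, U n t⟫_𝕜‖ ≤ ‖⟪W' n t, U n t⟫_𝕜‖ := RCLike.norm_re_le_norm _
      have h2 : ‖⟪W' n t, U n t⟫_𝕜‖ ≤ ‖W' n t‖ * ‖U n t‖ := norm_inner_le_norm _ _
      have h3 : ‖W' n t‖ * ‖U n t‖ ≤ L * M :=
        mul_le_mul (hW'bd n t) (hUbd n t) (norm_nonneg _) hL0
      linarith
    · exact intervalIntegrable_const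
    · filter_upwards [hzd, hFd] with t ht1 ht2 _
      have h1 := hUlim t (ht1 0)
      have h2 : HasDerivAt G (F t) t := by
        have : G = fun t => G 0 + ∫ s in (0:ℝ)..t, F s := funext hG
        rw [this]
        exact (ht2 0).const_add _
      have h3 : Tendsto (fun n => W' n t) atTop (𝓝 (F t)) := by
        have := h2.tendsto_slope_zero
        exact this.comp hk0'
      exact ((RCLike.continuous_re.tendsto _).comp (h3.inner h1)).const_mul 2
  have hlim2 : Tendsto (fun n => ∫ t in a..b, 2 * re ⟪W' n t, U n t⟫_𝕜) atTop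
      (𝓝 (re ⟪A (z b), z b⟫_𝕜 - re ⟪A (z a), z a⟫_𝕜)) := by
    simp_rw [hFTC]
    exact (helim b hb).sub (helim a ha)
  exact tendsto_nhds_unique hlim2 hlim

lemma dissipation (A : H →L[𝕜] H) (hA : ∀ x y, ⟪A x, y⟫_𝕜 = ⟪x, A y⟫_𝕜)
    {z F G : ℝ → H} {M L m : ℝ} (hm : 0 < m)
    (hz : AEStronglyMeasurable z volume) (hzM : ∀ t, ‖z t‖ ≤ M)
    (hF : AEStronglyMeasurable F volume) (hFL : ∀ t, ‖F t‖ ≤ L)
    (hG : ∀ t, G t = G 0 + ∫ s in (0:ℝ)..t, F s)
    (hGA : ∀ᵐ t, 0 ≤ t → G t = A (z t))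
    (hdis : ∀ᵐ t, 0 ≤ t → re ⟪F t, z t⟫_𝕜 ≤ -m * ‖z t‖ ^ 2) :
    IntegrableOn (fun t => ‖z t‖ ^ 2) (Ioi 0) ∧
      ∀ᵐ a, 0 ≤ a → ∫ t in Ioi a, ‖z t‖ ^ 2 ≤ (2 * m)⁻¹ * (‖A (z a)‖ * ‖z a‖) := by
  have hM0 : 0 ≤ M := (norm_nonneg _).trans (hzM 0)
  obtain ⟨S, hS, hSE⟩ := energy_identity A hA hz hzM hF hFL hG hGA
  have hSd : Dense S := Measure.dense_of_ae hS
  set e : ℝ → ℝ := fun t => re ⟪A (z t), z t⟫_𝕜 with he
  have hqm : AEStronglyMeasurable (fun t => ‖z t‖ ^ 2) volume := (hz.norm.pow 2)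
  have hqM : ∀ t, ‖‖z t‖ ^ 2‖ ≤ M ^ 2 := by
    intro t
    rw [Real.norm_of_nonneg (by positivity)]
    exact pow_le_pow_left₀ (norm_nonneg _) (hzM t) 2
  have hqi := fun a b => intInt_of_bdd hqm hqM a b
  have hFz : ∀ a b, IntervalIntegrable (fun t => 2 * re ⟪F t, z t⟫_𝕜) volume a b := by
    intro a b
    apply intInt_of_bdd (M := 2 * (L * M))
    · exact (RCLike.continuous_re.comp_aestronglyMeasurable (hF.inner hz)).const_mul 2
    · intro t
      have hL0 : 0 ≤ L := (norm_nonneg _).trans (hFL 0)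
      rw [norm_mul, Real.norm_of_nonneg (by norm_num : (0:ℝ) ≤ 2)]
      have h1 : ‖re ⟪F t, z t⟫_𝕜‖ ≤ ‖⟪F t, z t⟫_𝕜‖ := RCLike.norm_re_le_norm _
      have h2 : ‖⟪F t, z t⟫_𝕜‖ ≤ ‖F t‖ * ‖z t‖ := norm_inner_le_norm _ _
      have h3 : ‖F t‖ * ‖z t‖ ≤ L * M :=
        mul_le_mul (hFL t) (hzM t) (norm_nonneg _) hL0
      linarith
  -- key inequality
  have key : ∀ a ∈ S, ∀ b ∈ S, 0 ≤ a → a ≤ b → e b + 2 * m * ∫ t in a..b, ‖z t‖ ^ 2 ≤ e a := by
    intro a ha b hb ha0 hab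
    have h1 := hSE a ha b hb ha0 hab
    have h2 : ∫ t in a..b, 2 * re ⟪F t, z t⟫_𝕜 ≤ ∫ t in a..b, (-(2 * m)) * ‖z t‖ ^ 2 := by
      apply int_mono_ae hab (hFz a b) ((hqi a b).const_mul _)
      filter_upwards [hdis] with t ht hta _
      have := ht (ha0.trans hta)
      linarith
    have h3 : ∫ t in a..b, (-(2 * m)) * ‖z t‖ ^ 2 = (-(2 * m)) * ∫ t in a..b, ‖z t‖ ^ 2 :=
      intervalIntegral.integral_const_mul _ _
    rw [h3, ← h1] at h2
    simp only [he]
    linarith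
  set CA : ℝ := ‖A‖ + 1 with hCA
  have hCApos : 0 < CA := by positivity
  have heb : ∀ t, |e t| ≤ CA * ‖z t‖ ^ 2 := by
    intro t
    have h1 : |re ⟪A (z t), z t⟫_𝕜| ≤ ‖⟪A (z t), z t⟫_𝕜‖ := RCLike.abs_re_le_norm _
    have h2 : ‖⟪A (z t), z t⟫_𝕜‖ ≤ ‖A (z t)‖ * ‖z t‖ := norm_inner_le_norm _ _
    have h3 : ‖A (z t)‖ ≤ ‖A‖ * ‖z t‖ := A.le_opNorm _
    have h4 : ‖A (z t)‖ * ‖z t‖ ≤ ‖A‖ * ‖z t‖ * ‖z t‖ :=
      mul_le_mul_of_nonneg_right h3 (norm_nonneg _)
    have h5 : 0 ≤ ‖z t‖ ^ 2 := by positivity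
    simp only [he, hCA]
    nlinarith
  have hepos : ∀ a ∈ S, 0 ≤ a → 0 ≤ e a := by
    intro a ha ha0
    by_contra hneg
    push Not at hneg
    set T : ℝ := a + (CA * M ^ 2 + 1) * CA / (2 * m * (-e a)) with hT
    have hTpos : 0 < (CA * M ^ 2 + 1) * CA / (2 * m * (-e a)) := by
      have : 0 < -e a := by linarith
      positivity
    obtain ⟨b, hb, hbT⟩ : ∃ b ∈ S, T < b := by
      obtain ⟨b, hb, hb'⟩ := hSd.exists_mem_open (isOpen_Ioi (a := T)) ⟨T + 1, by simp⟩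
      exact ⟨b, hb, hb'⟩
    have hab : a ≤ b := by linarith
    have h1 := key a ha b hb ha0 hab
    have h2 : (b - a) * ((-e a) / CA) ≤ ∫ t in a..b, ‖z t‖ ^ 2 := by
      have : ∫ _t in a..b, ((-e a) / CA) = (b - a) * ((-e a) / CA) := by
        rw [intervalIntegral.integral_const, smul_eq_mul]
      rw [← this]
      apply int_mono_ae hab intervalIntegrable_const (hqi a b)
      filter_upwards [hS] with t ht hta _
      have h3 := key a ha t ht ha0 hta
      have h4 : 0 ≤ ∫ s in a..t, ‖z s‖ ^ 2 :=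
        intervalIntegral.integral_nonneg hta (fun s _ => by positivity)
      have h5 := heb t
      have h6 : e t ≤ e a := by nlinarith
      rw [div_le_iff₀ hCApos]
      rw [abs_of_neg (by linarith)] at h5
      nlinarith
    have h7 : -(CA * M ^ 2) ≤ e b := by
      have h8 := heb b
      have h9 : ‖z b‖ ^ 2 ≤ M ^ 2 := pow_le_pow_left₀ (norm_nonneg _) (hzM b) 2
      have h10 := neg_abs_le (e b)
      nlinarith
    have h11 : 2 * m * ((b - a) * ((-e a) / CA)) ≤ e a - e b := by nlinarith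
    have h12 : (CA * M ^ 2 + 1) * CA / (2 * m * (-e a)) < b - a := by linarith
    have h13 : 0 < 2 * m * (-e a) := by
      have : 0 < -e a := by linarith
      positivity
    rw [div_lt_iff₀ h13] at h12
    have h14 : 2 * m * ((b - a) * ((-e a) / CA)) = ((b - a) * (2 * m * (-e a))) / CA := by
      field_simp
    rw [h14, div_le_iff₀ hCApos] at h11
    nlinarith
  -- bound for interval integrals
  have hbd : ∀ a ∈ S, 0 ≤ a → ∀ b, a ≤ b → ∫ t in a..b, ‖z t‖ ^ 2 ≤ (2 * m)⁻¹ * e a := by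
    intro a ha ha0 b hab
    obtain ⟨c, hc, hbc⟩ : ∃ c ∈ S, b < c := by
      obtain ⟨c, hc, hc'⟩ := hSd.exists_mem_open (isOpen_Ioi (a := b)) ⟨b + 1, by simp⟩
      exact ⟨c, hc, hc'⟩
    have h1 := key a ha c hc ha0 (hab.trans hbc.le)
    have h2 := hepos c hc (ha0.trans (hab.trans hbc.le))
    have h3 : ∫ t in a..b, ‖z t‖ ^ 2 ≤ ∫ t in a..c, ‖z t‖ ^ 2 := by
      rw [← intervalIntegral.integral_add_adjacent_intervals (hqi a b) (hqi b c)]
      have : 0 ≤ ∫ s in b..c, ‖z s‖ ^ 2 :=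
        intervalIntegral.integral_nonneg hbc.le (fun s _ => by positivity)
      linarith
    have h4 : ∫ t in a..c, ‖z t‖ ^ 2 ≤ (2 * m)⁻¹ * e a := by
      rw [inv_mul_eq_div, le_div_iff₀ (by positivity)]
      linarith
    exact h3.trans h4
  have hint : IntegrableOn (fun t => ‖z t‖ ^ 2) (Ioi 0) := by
    obtain ⟨a, ha, ha'⟩ := hSd.exists_mem_open (isOpen_Ioo (a := (0:ℝ)) (b := 1)) ⟨1/2, by
      constructor <;> norm_num⟩
    have h1 : IntegrableOn (fun t => ‖z t‖ ^ 2) (Ioi a) := by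
      apply integrableOn_Ioi_of_intervalIntegral_norm_bounded (l := atTop) (b := fun n : ℕ => (n:ℝ))
        ((2 * m)⁻¹ * e a) a
      · intro n
        rcases le_total a (n:ℝ) with h | h
        · exact (hqi a n).1
        · rw [Ioc_eq_empty (not_lt.2 h)]; exact integrableOn_empty
      · exact tendsto_natCast_atTop_atTop
      · filter_upwards [eventually_ge_atTop 1] with n hn
        have h2 : (1:ℝ) ≤ n := by exact_mod_cast hn
        have h3 := hbd a ha ha'.1.le n (ha'.2.le.trans h2)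
        refine le_trans (le_of_eq ?_) h3
        apply intervalIntegral.integral_congr
        intro t _
        simp
    have h4 : Ioi (0:ℝ) = Ioc 0 a ∪ Ioi a := (Ioc_union_Ioi_eq_Ioi ha'.1.le).symm
    rw [h4]
    exact (hqi 0 a).1.union h1
  refine ⟨hint, ?_⟩
  filter_upwards [hS] with a ha ha0
  have h1 : Tendsto (fun b => ∫ t in a..b, ‖z t‖ ^ 2) atTop (𝓝 (∫ t in Ioi a, ‖z t‖ ^ 2)) :=
    intervalIntegral_tendsto_integral_Ioi a (hint.mono_set (Ioi_subset_Ioi ha0)) tendsto_id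
  have h2 : ∫ t in Ioi a, ‖z t‖ ^ 2 ≤ (2 * m)⁻¹ * e a := by
    apply le_of_tendsto h1
    filter_upwards [eventually_ge_atTop a] with b hb
    exact hbd a ha ha0 b hb
  have h3 : e a ≤ ‖A (z a)‖ * ‖z a‖ :=
    (RCLike.re_le_norm _).trans (norm_inner_le_norm _ _)
  exact h2.trans (mul_le_mul_of_nonneg_left h3 (by positivity))

/-- Cauchy-Schwarz on an interval. -/
lemma cauchy_interval {y : ℝ → ℝ} {a l M : ℝ} (hl : 0 < l)
    (hy : AEStronglyMeasurable y volume) (hyM : ∀ t, ‖y t‖ ≤ M) :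
    (∫ t in a..(a + l), y t) ^ 2 ≤ l * ∫ t in a..(a + l), (y t) ^ 2 := by
  have hyi := fun a b => intInt_of_bdd hy hyM a b
  have hy2 : ∀ a b, IntervalIntegrable (fun t => (y t) ^ 2) volume a b := by
    intro a b
    have hy2m : AEStronglyMeasurable (fun t => (y t) ^ 2) volume := hy.pow 2
    apply intInt_of_bdd (M := M ^ 2) hy2m
    intro t
    rw [norm_pow]
    exact pow_le_pow_left₀ (norm_nonneg _) (hyM t) 2
  set x : ℝ := l⁻¹ * ∫ t in a..(a + l), y t with hx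
  have h1 : 0 ≤ ∫ t in a..(a + l), (y t - x) ^ 2 :=
    intervalIntegral.integral_nonneg (by linarith) (fun s _ => by positivity)
  have h2 : ∫ t in a..(a + l), (y t - x) ^ 2
      = (∫ t in a..(a + l), (y t) ^ 2) - 2 * x * (∫ t in a..(a + l), y t) + l * x ^ 2 := by
    have h3 : ∀ t, (y t - x) ^ 2 = ((y t) ^ 2 - 2 * x * y t) + x ^ 2 := fun t => by ring
    simp_rw [h3]
    rw [intervalIntegral.integral_add ((hy2 _ _).sub ((hyi _ _).const_mul _))
      intervalIntegrable_const,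
      intervalIntegral.integral_sub (hy2 _ _) ((hyi _ _).const_mul _),
      intervalIntegral.integral_const_mul, intervalIntegral.integral_const]
    simp
  have h4 : ∫ t in a..(a + l), y t = l * x := by
    rw [hx]; field_simp
  rw [h2, h4] at h1
  rw [h4]
  nlinarith

lemma decay_step (A : H →L[𝕜] H) (hA : ∀ x y, ⟪A x, y⟫_𝕜 = ⟪x, A y⟫_𝕜)
    {z F G : ℝ → H} {M L m : ℝ} (hm : 0 < m)
    (hz : AEStronglyMeasurable z volume) (hzM : ∀ t, ‖z t‖ ≤ M)
    (hF : AEStronglyMeasurable F volume) (hFL : ∀ t, ‖F t‖ ≤ L)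
    (hG : ∀ t, G t = G 0 + ∫ s in (0:ℝ)..t, F s)
    (hGA : ∀ᵐ t, 0 ≤ t → G t = A (z t))
    (hdis : ∀ᵐ t, 0 ≤ t → re ⟪F t, z t⟫_𝕜 ≤ -m * ‖z t‖ ^ 2) :
    IntegrableOn (fun t => ‖z t‖ ^ 2) (Ioi 0) ∧
      ∀ a, 0 ≤ a →
        (∫ t in Ioi (a + 1), ‖z t‖ ^ 2 ≤ (2 * m)⁻¹ * (‖A‖ + 1) * ∫ t in a..(a + 1), ‖z t‖ ^ 2) ∧
        ∀ N, (∀ᵐ t, 0 ≤ t → ‖A (z t)‖ ≤ N) →
          (∫ t in Ioi (a + 1), ‖z t‖ ^ 2) ^ 2 ≤ ((2 * m)⁻¹ * N) ^ 2 * ∫ t in Ioi a, ‖z t‖ ^ 2 := by
  obtain ⟨hint, hJ⟩ := dissipation A hA hm hz hzM hF hFL hG hGA hdis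
  refine ⟨hint, ?_⟩
  intro a ha
  have hzn : AEStronglyMeasurable (fun t => ‖z t‖) volume := hz.norm
  have hznM : ∀ t, ‖‖z t‖‖ ≤ M := fun t => by rw [norm_norm]; exact hzM t
  have hzni := fun a b => intInt_of_bdd hzn hznM a b
  have hqm : AEStronglyMeasurable (fun t => ‖z t‖ ^ 2) volume := (hz.norm.pow 2)
  have hqM : ∀ t, ‖‖z t‖ ^ 2‖ ≤ M ^ 2 := by
    intro t
    rw [Real.norm_of_nonneg (by positivity)]
    exact pow_le_pow_left₀ (norm_nonneg _) (hzM t) 2
  have hqi := fun a b => intInt_of_bdd hqm hqM a b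
  have hmono : ∀ s t, 0 ≤ s → s ≤ t → ∫ r in Ioi t, ‖z r‖ ^ 2 ≤ ∫ r in Ioi s, ‖z r‖ ^ 2 := by
    intro s t hs hst
    apply setIntegral_mono_set (hint.mono_set (Ioi_subset_Ioi hs))
    · exact Eventually.of_forall fun r => by positivity
    · exact (Ioi_subset_Ioi hst).eventuallyLE
  have hJnn : 0 ≤ ∫ t in Ioi (a + 1), ‖z t‖ ^ 2 :=
    integral_nonneg fun t => by positivity
  have hconst : ∫ _t in a..(a + 1), (∫ r in Ioi (a + 1), ‖z r‖ ^ 2)
      = ∫ r in Ioi (a + 1), ‖z r‖ ^ 2 := by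
    rw [intervalIntegral.integral_const]; simp
  have hm' : 0 ≤ (2 * m)⁻¹ := by positivity
  constructor
  · rw [← hconst, ← intervalIntegral.integral_const_mul]
    apply int_mono_ae (by linarith) intervalIntegrable_const ((hqi _ _).const_mul _)
    filter_upwards [hJ] with t ht hat hat1
    have h1 := hmono t (a + 1) (ha.trans hat) hat1
    have h2 := ht (ha.trans hat)
    have h3 : ‖A (z t)‖ ≤ ‖A‖ * ‖z t‖ := A.le_opNorm _
    have h4 : ‖A (z t)‖ * ‖z t‖ ≤ (‖A‖ + 1) * ‖z t‖ ^ 2 := by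
      nlinarith [norm_nonneg (z t), sq_nonneg (‖z t‖)]
    calc ∫ r in Ioi (a + 1), ‖z r‖ ^ 2 ≤ (2 * m)⁻¹ * (‖A (z t)‖ * ‖z t‖) := h1.trans h2
      _ ≤ (2 * m)⁻¹ * ((‖A‖ + 1) * ‖z t‖ ^ 2) := mul_le_mul_of_nonneg_left h4 hm'
      _ = (2 * m)⁻¹ * (‖A‖ + 1) * ‖z t‖ ^ 2 := by ring
  · intro N hN
    have h1 : ∫ t in Ioi (a + 1), ‖z t‖ ^ 2 ≤ (2 * m)⁻¹ * N * ∫ t in a..(a + 1), ‖z t‖ := by
      rw [← hconst, ← intervalIntegral.integral_const_mul]
      apply int_mono_ae (by linarith) intervalIntegrable_const ((hzni _ _).const_mul _)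
      filter_upwards [hJ, hN] with t ht htN hat hat1
      have h1 := hmono t (a + 1) (ha.trans hat) hat1
      have h2 := ht (ha.trans hat)
      have h3 := htN (ha.trans hat)
      have h4 : ‖A (z t)‖ * ‖z t‖ ≤ N * ‖z t‖ := mul_le_mul_of_nonneg_right h3 (norm_nonneg _)
      calc ∫ r in Ioi (a + 1), ‖z r‖ ^ 2 ≤ (2 * m)⁻¹ * (‖A (z t)‖ * ‖z t‖) := h1.trans h2
        _ ≤ (2 * m)⁻¹ * (N * ‖z t‖) := mul_le_mul_of_nonneg_left h4 hm'
        _ = (2 * m)⁻¹ * N * ‖z t‖ := by ring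
    have h2 := cauchy_interval (a := a) (l := 1) one_pos hzn hznM
    have h3 : ∫ t in a..(a + 1), ‖z t‖ ^ 2 ≤ ∫ t in Ioi a, ‖z t‖ ^ 2 := by
      rw [intervalIntegral.integral_of_le (by linarith)]
      apply setIntegral_mono_set (hint.mono_set (Ioi_subset_Ioi ha))
      · exact Eventually.of_forall fun r => by positivity
      · exact Ioc_subset_Ioi_self.eventuallyLE
    calc (∫ t in Ioi (a + 1), ‖z t‖ ^ 2) ^ 2
        ≤ ((2 * m)⁻¹ * N * ∫ t in a..(a + 1), ‖z t‖) ^ 2 := pow_le_pow_left₀ hJnn h1 2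
      _ = ((2 * m)⁻¹ * N) ^ 2 * (∫ t in a..(a + 1), ‖z t‖) ^ 2 := by ring
      _ ≤ ((2 * m)⁻¹ * N) ^ 2 * ∫ t in Ioi a, ‖z t‖ ^ 2 := by
          apply mul_le_mul_of_nonneg_left _ (by positivity)
          linarith

/-- The contraction factor over unit time. -/
lemma theta_step {c J0 J1 I : ℝ} (hc : 0 < c) (h1 : J1 ≤ c * I) (h2 : J0 = I + J1) :
    J1 ≤ c / (1 + c) * J0 := by
  rw [div_mul_eq_mul_div, le_div_iff₀ (by positivity)]
  nlinarith

lemma exists_limit (A : H →L[𝕜] H) (hA : ∀ x y, ⟪A x, y⟫_𝕜 = ⟪x, A y⟫_𝕜)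
    {w f g : ℝ → H} {M L m c θ ρ : ℝ} (hm : 0 < m)
    (hc : c = (2 * m)⁻¹ * (‖A‖ + 1)) (hθ : θ = c / (1 + c)) (hρ0 : 0 < ρ) (hρ : ρ ^ 8 = θ)
    (hw : AEStronglyMeasurable w volume) (hwM : ∀ t, ‖w t‖ ≤ M)
    (hf : AEStronglyMeasurable f volume) (hfL : ∀ t, ‖f t‖ ≤ L)
    (hg : ∀ t, g t = g 0 + ∫ s in (0:ℝ)..t, f s)
    (hgA : ∀ᵐ t, 0 ≤ t → g t = A (w t))
    (hdis : ∀ h, 0 < h → ∀ᵐ t, 0 ≤ t →
      re ⟪f (t + h) - f t, w (t + h) - w t⟫_𝕜 ≤ -m * ‖w (t + h) - w t‖ ^ 2) :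
    ∃ winf : H, ∃ K : ℝ, 0 ≤ K ∧ ∀ n : ℕ, ∀ᵐ t, 3 + (n:ℝ) ≤ t → ‖w t - winf‖ ≤ K * ρ ^ n := by
  have hM0 : 0 ≤ M := (norm_nonneg _).trans (hwM 0)
  have hc0 : 0 < c := by rw [hc]; positivity
  have hθ0 : 0 < θ := by rw [hθ]; positivity
  have hθ1 : θ < 1 := by rw [hθ, div_lt_one (by positivity)]; linarith
  have hwi := fun a b => intInt_of_bdd hw hwM a b
  have hfi := fun a b => intInt_of_bdd hf hfL a b
  -- shifted functions
  have hshift : ∀ h : ℝ, ∀ {E : Type _} [TopologicalSpace E] {φ : ℝ → E},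
      AEStronglyMeasurable φ volume → AEStronglyMeasurable (fun t => φ (t + h)) volume := by
    intro h E _ φ hφ
    exact hφ.comp_quasiMeasurePreserving
      (measurePreserving_add_right volume h).quasiMeasurePreserving
  have hshift_ae : ∀ h : ℝ, ∀ {p : ℝ → Prop}, (∀ᵐ t, p t) → ∀ᵐ t, p (t + h) := by
    intro h p hp
    exact (measurePreserving_add_right volume h).quasiMeasurePreserving.ae hp
  set z : ℝ → ℝ → H := fun h t => w (t + h) - w t with hz
  have hzm : ∀ h, AEStronglyMeasurable (z h) volume := fun h => (hshift h hw).sub hw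
  have hzM : ∀ h t, ‖z h t‖ ≤ 2 * M := by
    intro h t
    have := norm_sub_le (w (t + h)) (w t)
    have h1 := hwM (t + h)
    have h2 := hwM t
    simp only [hz]; linarith
  set J : ℝ → ℝ → ℝ := fun h a => ∫ t in Ioi a, ‖z h t‖ ^ 2 with hJ
  -- the two recursions
  have hstep : ∀ h, 0 < h → IntegrableOn (fun t => ‖z h t‖ ^ 2) (Ioi 0) ∧
      ∀ a, 0 ≤ a → (J h (a + 1) ≤ c * ∫ t in a..(a + 1), ‖z h t‖ ^ 2) ∧
        (J h (a + 1)) ^ 2 ≤ ((2 * m)⁻¹ * (L * h)) ^ 2 * J h a := by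
    intro h hh
    set F : ℝ → H := fun t => f (t + h) - f t with hF
    set G : ℝ → H := fun t => g (t + h) - g t with hG
    have hFm : AEStronglyMeasurable F volume := (hshift h hf).sub hf
    have hFL : ∀ t, ‖F t‖ ≤ 2 * L := by
      intro t
      have := norm_sub_le (f (t + h)) (f t)
      have h1 := hfL (t + h)
      have h2 := hfL t
      simp only [hF]; linarith
    have hgsub : ∀ s t, g t - g s = ∫ r in s..t, f r := by
      intro s t
      rw [hg t, hg s, add_sub_add_left_eq_sub]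
      exact intervalIntegral.integral_interval_sub_left (hfi _ _) (hfi _ _)
    have hGF : ∀ t, G t = G 0 + ∫ s in (0:ℝ)..t, F s := by
      intro t
      have h1 : ∫ s in (0:ℝ)..t, F s = (∫ s in (0:ℝ)..t, f (s + h)) - ∫ s in (0:ℝ)..t, f s := by
        apply intervalIntegral.integral_sub
        · exact intInt_of_bdd (hshift h hf) (fun t => hfL (t + h)) _ _
        · exact hfi _ _
      have h2 : ∫ s in (0:ℝ)..t, f (s + h) = ∫ s in (0 + h)..(t + h), f s :=
        intervalIntegral.integral_comp_add_right _ _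
      rw [h1, h2, ← hgsub, ← hgsub]
      simp only [hG]
      abel
    have hGA : ∀ᵐ t, 0 ≤ t → G t = A (z h t) := by
      filter_upwards [hgA, hshift_ae h hgA] with t ht1 ht2 ht0
      simp only [hG, hz]
      rw [ht1 ht0, ht2 (by linarith), map_sub]
    obtain ⟨hint, hst⟩ := decay_step A hA hm (hzm h) (hzM h) hFm hFL hGF hGA (hdis h hh)
    refine ⟨hint, fun a ha => ?_⟩
    obtain ⟨h1, h2⟩ := hst a ha
    refine ⟨by rw [hc]; exact h1, ?_⟩
    apply h2 (L * h)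
    filter_upwards [hGA] with t ht ht0
    rw [← ht ht0]
    simp only [hG]
    rw [hgsub]
    have := intervalIntegral.norm_integral_le_of_norm_le_const (a := t) (b := t + h)
      (f := f) (C := L) (fun r _ => hfL r)
    rwa [add_sub_cancel_left, abs_of_pos hh] at this
  have hJnn : ∀ h a, 0 ≤ J h a := fun h a => integral_nonneg fun t => by positivity
  have hznm : ∀ h, AEStronglyMeasurable (fun t => ‖z h t‖) volume := fun h => (hzm h).norm
  have hznM : ∀ h t, ‖‖z h t‖‖ ≤ 2 * M := fun h t => by rw [norm_norm]; exact hzM h t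
  have hqm : ∀ h, AEStronglyMeasurable (fun t => ‖z h t‖ ^ 2) volume := fun h => (hznm h).pow 2
  have hqM : ∀ h t, ‖‖z h t‖ ^ 2‖ ≤ (2 * M) ^ 2 := by
    intro h t
    rw [Real.norm_of_nonneg (by positivity)]
    exact pow_le_pow_left₀ (norm_nonneg _) (hzM h t) 2
  have hqi := fun h a b => intInt_of_bdd (hqm h) (hqM h) a b
  have hJmono : ∀ h, 0 < h → ∀ s t, 0 ≤ s → s ≤ t → J h t ≤ J h s := by
    intro h hh s t hs hst
    apply setIntegral_mono_set ((hstep h hh).1.mono_set (Ioi_subset_Ioi hs))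
    · exact Eventually.of_forall fun r => by positivity
    · exact (Ioi_subset_Ioi hst).eventuallyLE
  have hJadd : ∀ h, 0 < h → ∀ a, 0 ≤ a →
      J h a = (∫ t in a..(a + 1), ‖z h t‖ ^ 2) + J h (a + 1) := by
    intro h hh a ha
    have hi := (hstep h hh).1
    simp only [hJ]
    rw [intervalIntegral.integral_of_le (by linarith), ← setIntegral_union _ measurableSet_Ioi
      (hqi h a (a + 1)).1 (hi.mono_set (Ioi_subset_Ioi (by linarith))), Ioc_union_Ioi_eq_Ioi (by linarith)]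
    exact Set.disjoint_left.2 fun x hx hx' => absurd hx.2 (not_le.2 hx')
  -- exponential decay of J
  set J0 : ℝ := c * (2 * M) ^ 2 with hJ0
  have hJ0nn : 0 ≤ J0 := by positivity
  have hJdec : ∀ h, 0 < h → ∀ n : ℕ, J h (1 + n) ≤ θ ^ n * J0 := by
    intro h hh n
    induction n with
    | zero =>
      have h1 := ((hstep h hh).2 0 le_rfl).1
      have h2 : ∫ t in (0:ℝ)..(0 + 1), ‖z h t‖ ^ 2 ≤ (2 * M) ^ 2 := by
        have h3 : ∫ t in (0:ℝ)..(0 + 1), ‖z h t‖ ^ 2 ≤ ∫ _t in (0:ℝ)..(0 + 1), (2 * M) ^ 2 := by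
          apply int_mono_ae (by norm_num) (hqi h _ _) intervalIntegrable_const
          refine Eventually.of_forall fun t _ _ => ?_
          exact pow_le_pow_left₀ (norm_nonneg _) (hzM h t) 2
        rw [intervalIntegral.integral_const] at h3
        simpa using h3
      have h4 : (1 + ((0:ℕ):ℝ)) = 0 + 1 := by norm_num
      rw [h4, pow_zero, one_mul, hJ0]
      exact h1.trans (mul_le_mul_of_nonneg_left h2 hc0.le)
    | succ n ih =>
      have h0 : (0:ℝ) ≤ 1 + n := by positivity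
      have h1 := ((hstep h hh).2 (1 + n) h0).1
      have h2 := hJadd h hh (1 + n) h0
      have h3 := theta_step hc0 h1 h2
      have h4 : (1 + ((n + 1 : ℕ):ℝ)) = 1 + n + 1 := by push_cast; ring
      rw [h4, pow_succ]
      rw [← hθ] at h3
      calc J h (1 + n + 1) ≤ θ * J h (1 + n) := h3
        _ ≤ θ * (θ ^ n * J0) := mul_le_mul_of_nonneg_left ih hθ0.le
        _ = θ ^ n * θ * J0 := by ring
  -- fourth power bound
  set κ : ℝ := ((2 * m)⁻¹ * L) ^ 2 with hκ
  have hκ0 : 0 ≤ κ := by positivity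
  have hJ4 : ∀ h, 0 < h → ∀ n : ℕ, (J h (3 + n)) ^ 4 ≤ κ ^ 3 * h ^ 6 * (θ ^ n * J0) := by
    intro h hh n
    have h0 : (0:ℝ) ≤ 1 + n := by positivity
    have h1 := ((hstep h hh).2 (1 + n) h0).2
    have h2 := ((hstep h hh).2 (1 + n + 1) (by positivity)).2
    have h3 := hJdec h hh n
    have e1 : (3 + (n:ℝ)) = 1 + n + 1 + 1 := by ring
    rw [e1]
    have e2 : ((2 * m)⁻¹ * (L * h)) ^ 2 = κ * h ^ 2 := by rw [hκ]; ring
    rw [e2] at h1 h2
    have hkh : 0 ≤ κ * h ^ 2 := by positivity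
    calc (J h (1 + n + 1 + 1)) ^ 4 = ((J h (1 + n + 1 + 1)) ^ 2) ^ 2 := by ring
      _ ≤ (κ * h ^ 2 * J h (1 + n + 1)) ^ 2 := pow_le_pow_left₀ (by positivity) h2 2
      _ = (κ * h ^ 2) ^ 2 * (J h (1 + n + 1)) ^ 2 := by ring
      _ ≤ (κ * h ^ 2) ^ 2 * (κ * h ^ 2 * J h (1 + n)) :=
          mul_le_mul_of_nonneg_left h1 (by positivity)
      _ ≤ (κ * h ^ 2) ^ 2 * (κ * h ^ 2 * (θ ^ n * J0)) := by
          apply mul_le_mul_of_nonneg_left _ (by positivity)
          exact mul_le_mul_of_nonneg_left h3 hkh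
      _ = κ ^ 3 * h ^ 6 * (θ ^ n * J0) := by ring
  -- integral of |z| over an interval of length l
  have hzint : ∀ h, 0 < h → ∀ l, 0 < l → ∀ t, 0 ≤ t →
      (∫ s in t..(t + l), ‖z h s‖) ^ 2 ≤ l * J h t := by
    intro h hh l hl t ht
    have h1 := cauchy_interval (a := t) hl (hznm h) (hznM h)
    have h2 : ∫ s in t..(t + l), ‖z h s‖ ^ 2 ≤ J h t := by
      rw [intervalIntegral.integral_of_le (by linarith)]
      apply setIntegral_mono_set ((hstep h hh).1.mono_set (Ioi_subset_Ioi ht))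
      · exact Eventually.of_forall fun r => by positivity
      · exact Ioc_subset_Ioi_self.eventuallyLE
    exact h1.trans (mul_le_mul_of_nonneg_left h2 hl.le)
  -- Steklov averages
  set S : ℝ → ℝ → H := fun h t => h⁻¹ • ∫ s in t..(t + h), w s with hS
  -- dyadic differences
  have hdy : ∀ h, 0 < h → ∀ t, 0 ≤ t →
      ‖S (2 * h) t - S h t‖ ≤ (2 * h)⁻¹ * ∫ s in t..(t + h), ‖z h s‖ := by
    intro h hh t ht
    have e1 : ∫ s in t..(t + 2 * h), w s
        = (∫ s in t..(t + h), w s) + ∫ s in (t + h)..(t + 2 * h), w s :=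
      (intervalIntegral.integral_add_adjacent_intervals (hwi _ _) (hwi _ _)).symm
    have e2 : ∫ s in (t + h)..(t + 2 * h), w s = ∫ s in t..(t + h), w (s + h) := by
      rw [intervalIntegral.integral_comp_add_right]
      congr 1; ring
    have e3 : ∫ s in t..(t + h), z h s
        = (∫ s in t..(t + h), w (s + h)) - ∫ s in t..(t + h), w s := by
      apply intervalIntegral.integral_sub
      · exact intInt_of_bdd (hshift h hw) (fun t => hwM (t + h)) _ _
      · exact hwi _ _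
    have e4 : S (2 * h) t - S h t = (2 * h)⁻¹ • ∫ s in t..(t + h), z h s := by
      simp only [hS]
      rw [e1, e2, e3]
      have : h⁻¹ = 2 * (2 * h)⁻¹ := by field_simp
      rw [this]
      module
    rw [e4, norm_smul, Real.norm_of_nonneg (by positivity)]
    apply mul_le_mul_of_nonneg_left _ (by positivity)
    exact intervalIntegral.norm_integral_le_integral_norm (by linarith)

  obtain ⟨K1, hK10, hK1⟩ : ∃ y : ℝ, 0 ≤ y ∧ y ^ 8 = κ ^ 3 * J0 := by
    have h0 : (0:ℝ) ≤ κ ^ 3 * J0 := by positivity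
    exact ⟨_, Real.rpow_nonneg h0 ((8:ℕ):ℝ)⁻¹, Real.rpow_inv_natCast_pow h0 (by norm_num)⟩
  obtain ⟨r, hr0, hr8⟩ : ∃ y : ℝ, 0 ≤ y ∧ y ^ 8 = 1 / 4 := by
    have h0 : (0:ℝ) ≤ 1 / 4 := by norm_num
    exact ⟨_, Real.rpow_nonneg h0 ((8:ℕ):ℝ)⁻¹, Real.rpow_inv_natCast_pow h0 (by norm_num)⟩
  have hr1 : r < 1 := by
    by_contra hcon
    push Not at hcon
    have : (1:ℝ) ≤ r ^ 8 := one_le_pow₀ hcon
    rw [hr8] at this
    norm_num at this
  have hρ1 : ρ < 1 := by
    by_contra hcon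
    push Not at hcon
    have : (1:ℝ) ≤ ρ ^ 8 := one_le_pow₀ hcon
    rw [hρ] at this
    linarith
  -- one dyadic step
  have hdy2 : ∀ n i : ℕ, ∀ t, 3 + (n:ℝ) ≤ t →
      ‖S ((1/2) ^ i) t - S ((1/2) ^ (i + 1)) t‖ ≤ K1 * r ^ (i + 1) * ρ ^ n := by
    intro n i t ht
    set h : ℝ := (1/2) ^ (i + 1) with hh
    have hhpos : 0 < h := by positivity
    have h2h : ((1:ℝ)/2) ^ i = 2 * h := by rw [hh, pow_succ]; ring
    have ht0 : 0 ≤ t := le_trans (by positivity) ht
    rw [h2h]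
    have h1 := hdy h hhpos t ht0
    have h2 := hzint h hhpos h hhpos t ht0
    set X : ℝ := ∫ s in t..(t + h), ‖z h s‖ with hX
    have hX0 : 0 ≤ X := intervalIntegral.integral_nonneg (by linarith) fun s _ => norm_nonneg _
    have h3 : (J h t) ^ 4 ≤ κ ^ 3 * h ^ 6 * (θ ^ n * J0) := by
      refine le_trans (pow_le_pow_left₀ (hJnn h t) (hJmono h hhpos (3 + n) t (by positivity) ht) 4)
        (hJ4 h hhpos n)
    have h4 : X ^ 8 ≤ h ^ 4 * (κ ^ 3 * h ^ 6 * (θ ^ n * J0)) := by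
      calc X ^ 8 = (X ^ 2) ^ 4 := by ring
        _ ≤ (h * J h t) ^ 4 := pow_le_pow_left₀ (by positivity) h2 4
        _ = h ^ 4 * (J h t) ^ 4 := by ring
        _ ≤ _ := mul_le_mul_of_nonneg_left h3 (by positivity)
    have h5 : ((2 * h)⁻¹ * X) ^ 8 ≤ (K1 * r ^ (i + 1) * ρ ^ n) ^ 8 := by
      have e1 : (K1 * r ^ (i + 1) * ρ ^ n) ^ 8 = κ ^ 3 * J0 * h ^ 2 * θ ^ n := by
        have e2 : (K1 * r ^ (i + 1) * ρ ^ n) ^ 8 = K1 ^ 8 * (r ^ 8) ^ (i + 1) * (ρ ^ 8) ^ n := by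
          ring
        have e3 : h ^ 2 = (1 / 4) ^ (i + 1) := by
          rw [hh, ← pow_mul, mul_comm (i + 1) 2, pow_mul]
          norm_num
        rw [e2, hK1, hr8, hρ, e3]
      rw [e1, mul_pow]
      calc ((2 * h)⁻¹) ^ 8 * X ^ 8
          ≤ ((2 * h)⁻¹) ^ 8 * (h ^ 4 * (κ ^ 3 * h ^ 6 * (θ ^ n * J0))) :=
            mul_le_mul_of_nonneg_left h4 (by positivity)
        _ = (1/256) * (κ ^ 3 * J0 * h ^ 2 * θ ^ n) := by field_simp; ring
        _ ≤ 1 * (κ ^ 3 * J0 * h ^ 2 * θ ^ n) :=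
            mul_le_mul_of_nonneg_right (by norm_num) (by positivity)
        _ = _ := one_mul _
    have h6 : (2 * h)⁻¹ * X ≤ K1 * r ^ (i + 1) * ρ ^ n :=
      le_of_pow_le_pow_left₀ (by norm_num) (by positivity) h5
    exact h1.trans h6
  have hdy3 : ∀ n i : ℕ, ∀ t, 3 + (n:ℝ) ≤ t →
      ‖S 1 t - S ((1/2) ^ i) t‖ ≤ K1 * ρ ^ n * ((1 - r ^ i) / (1 - r)) := by
    intro n i t ht
    have h1r : 0 < 1 - r := by linarith
    induction i with
    | zero => simp
    | succ i ih =>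
      have h1 := hdy2 n i t ht
      have h2 : ‖S 1 t - S ((1/2) ^ (i + 1)) t‖
          ≤ ‖S 1 t - S ((1/2) ^ i) t‖ + ‖S ((1/2) ^ i) t - S ((1/2) ^ (i + 1)) t‖ :=
        norm_sub_le_norm_sub_add_norm_sub _ _ _
      have h3 : r ^ (i + 1) ≤ r ^ i := pow_le_pow_of_le_one hr0 hr1.le (Nat.le_succ i)
      have h4 : K1 * r ^ (i + 1) * ρ ^ n ≤ K1 * ρ ^ n * r ^ i := by
        have : 0 ≤ K1 * ρ ^ n := by positivity
        nlinarith
      have h5 : (1 - r ^ (i + 1)) / (1 - r) = (1 - r ^ i) / (1 - r) + r ^ i := by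
        field_simp
        ring
      rw [h5, mul_add]
      linarith
  have hdy4 : ∀ n i : ℕ, ∀ t, 3 + (n:ℝ) ≤ t →
      ‖S 1 t - S ((1/2) ^ i) t‖ ≤ K1 / (1 - r) * ρ ^ n := by
    intro n i t ht
    have h1r : 0 < 1 - r := by linarith
    refine (hdy3 n i t ht).trans ?_
    have h1 : (1 - r ^ i) / (1 - r) ≤ 1 / (1 - r) := by
      apply div_le_div_of_nonneg_right _ h1r.le
      have : 0 ≤ r ^ i := by positivity
      linarith
    calc K1 * ρ ^ n * ((1 - r ^ i) / (1 - r)) ≤ K1 * ρ ^ n * (1 / (1 - r)) :=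
          mul_le_mul_of_nonneg_left h1 (by positivity)
      _ = _ := by ring
  -- convergence of the Steklov averages
  have hzd := _root_.LocallyIntegrable.ae_hasDerivAt_integral (locInt_of_bdd hw hwM)
  have hlimS : ∀ᵐ t, Tendsto (fun i : ℕ => S ((1/2) ^ i) t) atTop (𝓝 (w t)) := by
    filter_upwards [hzd] with t ht
    have h1 := (ht 0).tendsto_slope_zero
    have h2 : Tendsto (fun i : ℕ => ((1:ℝ)/2) ^ i) atTop (𝓝[≠] 0) := by
      rw [tendsto_nhdsWithin_iff]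
      refine ⟨tendsto_pow_atTop_nhds_zero_of_lt_one (by norm_num) (by norm_num), ?_⟩
      exact Eventually.of_forall fun i => by simp
    have h3 := h1.comp h2
    refine h3.congr fun i => ?_
    simp only [hS, Function.comp]
    rw [intervalIntegral.integral_interval_sub_left (hwi _ _) (hwi _ _)]
  have hclose : ∀ᵐ t, ∀ n : ℕ, 3 + (n:ℝ) ≤ t → ‖w t - S 1 t‖ ≤ K1 / (1 - r) * ρ ^ n := by
    filter_upwards [hlimS] with t ht n hn
    have h1 : Tendsto (fun i : ℕ => ‖S 1 t - S ((1/2) ^ i) t‖) atTop (𝓝 ‖S 1 t - w t‖) :=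
      (tendsto_const_nhds.sub ht).norm
    rw [norm_sub_rev]
    exact le_of_tendsto h1 (Eventually.of_forall fun i => hdy4 n i t hn)
  -- Cauchy property of the unit averages
  set K2 : ℝ := Real.sqrt J0 with hK2
  have hK20 : 0 ≤ K2 := Real.sqrt_nonneg _
  have hS1 : ∀ n : ℕ, ∀ t s, 1 + (n:ℝ) ≤ t → t ≤ s → ‖S 1 s - S 1 t‖ ≤ K2 * ρ ^ n := by
    intro n t s ht hts
    rcases hts.eq_or_lt with rfl | hts
    · simp; positivity
    set h : ℝ := s - t with hh
    have hhpos : 0 < h := by linarith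
    have ht0 : 0 ≤ t := le_trans (by positivity) ht
    have e2 : ∫ r in s..(s + 1), w r = ∫ r in t..(t + 1), w (r + h) := by
      rw [intervalIntegral.integral_comp_add_right]
      congr 1 <;> (rw [hh]; ring)
    have e3 : ∫ r in t..(t + 1), z h r
        = (∫ r in t..(t + 1), w (r + h)) - ∫ r in t..(t + 1), w r := by
      apply intervalIntegral.integral_sub
      · exact intInt_of_bdd (hshift h hw) (fun t => hwM (t + h)) _ _
      · exact hwi _ _
    have e4 : S 1 s - S 1 t = ∫ r in t..(t + 1), z h r := by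
      simp only [hS, inv_one, one_smul]
      rw [e2, e3]
    have h1 : ‖S 1 s - S 1 t‖ ≤ ∫ r in t..(t + 1), ‖z h r‖ := by
      rw [e4]
      exact intervalIntegral.norm_integral_le_integral_norm (by linarith)
    have h2 := hzint h hhpos 1 one_pos t ht0
    have h3 : J h t ≤ θ ^ n * J0 :=
      (hJmono h hhpos (1 + n) t (by positivity) ht).trans (hJdec h hhpos n)
    have h4 : (K2 * ρ ^ n) ^ 2 = J0 * (ρ ^ n) ^ 2 := by
      rw [mul_pow, hK2, Real.sq_sqrt hJ0nn]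
    have h5 : θ ^ n ≤ (ρ ^ n) ^ 2 := by
      rw [← hρ, ← pow_mul, ← pow_mul]
      exact pow_le_pow_of_le_one hρ0.le hρ1.le (by linarith)
    have h6 : ‖S 1 s - S 1 t‖ ^ 2 ≤ (K2 * ρ ^ n) ^ 2 := by
      rw [h4]
      calc ‖S 1 s - S 1 t‖ ^ 2 ≤ (∫ r in t..(t + 1), ‖z h r‖) ^ 2 :=
            pow_le_pow_left₀ (norm_nonneg _) h1 2
        _ ≤ 1 * J h t := h2
        _ ≤ θ ^ n * J0 := by rw [one_mul]; exact h3
        _ ≤ (ρ ^ n) ^ 2 * J0 := mul_le_mul_of_nonneg_right h5 hJ0nn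
        _ = _ := mul_comm _ _
    exact le_of_pow_le_pow_left₀ (by norm_num) (by positivity) h6
  have hcau : CauchySeq (fun k : ℕ => S 1 (1 + (k:ℝ))) := by
    apply cauchySeq_of_le_geometric ρ K2 hρ1
    intro n
    rw [dist_eq_norm, norm_sub_rev]
    exact hS1 n (1 + n) (1 + (n + 1 : ℕ)) le_rfl (by push_cast; linarith)
  obtain ⟨winf, hwinf⟩ := cauchySeq_tendsto_of_complete hcau
  have hS2 : ∀ n : ℕ, ∀ t, 1 + (n:ℝ) ≤ t → ‖S 1 t - winf‖ ≤ K2 * ρ ^ n := by
    intro n t ht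
    have h1 : Tendsto (fun k : ℕ => ‖S 1 t - S 1 (1 + (k:ℝ))‖) atTop (𝓝 ‖S 1 t - winf‖) :=
      (tendsto_const_nhds.sub hwinf).norm
    apply le_of_tendsto h1
    obtain ⟨k0, hk0⟩ := exists_nat_ge t
    filter_upwards [eventually_ge_atTop k0] with k hk
    rw [norm_sub_rev]
    apply hS1 n t _ ht
    have : (k0:ℝ) ≤ k := by exact_mod_cast hk
    linarith
  refine ⟨winf, K1 / (1 - r) + K2, ?_, fun n => ?_⟩
  · have h1r : 0 < 1 - r := by linarith
    positivity
  · filter_upwards [hclose] with t ht htn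
    have h1 := ht n htn
    have h2 := hS2 n t (by linarith)
    have h3 : ‖w t - winf‖ ≤ ‖w t - S 1 t‖ + ‖S 1 t - winf‖ :=
      norm_sub_le_norm_sub_add_norm_sub _ _ _
    rw [add_mul]
    linarith

end Energy

end Pool.Agent.Lib.MP_7e3c50_an
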