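import Mathlib

set_option autoImplicit false

/-!
# Definitions for problem MP_7e3c50_an

The data `(A, B, V, u⁺)` with the hypotheses (H1), (H3), (H4), (H5) of the problem, the quadratic
map `Q(u) = B(u, u)`, and solutions of `A u' = Q(u)` on `[0, ∞)`.
-/

open MeasureTheory Set Filter Topology RCLike
open scoped InnerProductSpace ENNReal

namespace Pool.Agent.Lib.MP_7e3c50_an

/-- The data `(A, B, V, u⁺)` of the problem, with hypotheses (H1), (H3), (H4), (H5), in a real or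
complex Hilbert space `H` (scalar field `𝕜`). Here `Q u = B u u` and `T = Q'(u⁺) = 2 B u⁺`. -/
structure KineticData (𝕜 H : Type*) [RCLike 𝕜] [NormedAddCommGroup H] [InnerProductSpace 𝕜 H]
    [CompleteSpace H] where
  /-- the bounded operator `A` -/
  A : H →L[𝕜] H
  /-- the closed subspace `V` -/
  V : Submodule 𝕜 H
  /-- the bounded bilinear map `B` -/
  B : H →L[𝕜] H →L[𝕜] H
  /-- the equilibrium `u⁺` -/
  uplus : H
  /-- (H1) `A` is self-adjoint -/
  selfAdjoint_A : IsSelfAdjoint A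
  /-- (H1) `V` is closed -/
  closed_V : IsClosed (V : Set H)
  /-- (H1) `V` is a proper subspace -/
  proper_V : V ≠ ⊤
  /-- (H1) the orthogonal complement of `V` is finite dimensional -/
  finite_perp : FiniteDimensional 𝕜 Vᗮ
  /-- (H1) `B` takes values in `V` -/
  B_mem : ∀ x y, B x y ∈ V
  /-- (H1) `B` is symmetric -/
  B_symm : ∀ x y, B x y = B y x
  /-- (H4) `A` is injective -/
  injective_A : Function.Injective A
  /-- (H5) the compression of `A` to the orthogonal complement of `V` is invertible -/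
  bijective_block : Function.Bijective (fun x : Vᗮ => Vᗮ.orthogonalProjectionOnto (A x))
  /-- (H3) `Q(u⁺) = 0` -/
  Q_uplus : B uplus uplus = 0
  /-- (H3) `T` is self-adjoint -/
  selfAdjoint_T : IsSelfAdjoint ((2 : 𝕜) • B uplus)
  /-- (H3) the kernel of `T` is the orthogonal complement of `V` -/
  ker_T : ∀ x, ((2 : 𝕜) • B uplus) x = 0 ↔ x ∈ Vᗮ
  /-- (H3) `T ≤ -δ` on `V` for some `δ > 0` -/
  negative_T : ∃ δ : ℝ, 0 < δ ∧ ∀ v ∈ V, re ⟪((2 : 𝕜) • B uplus) v, v⟫_𝕜 ≤ -δ * ‖v‖ ^ 2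
  /-- (H3) the Kawashima compensator: a bounded skew-symmetric `K` with `Re(KA - T) ≥ γ > 0` -/
  kawashima : ∃ K : H →L[𝕜] H, ContinuousLinearMap.adjoint K = -K ∧ ∃ γ : ℝ, 0 < γ ∧
    ∀ x, γ * ‖x‖ ^ 2 ≤ re ⟪(K ∘L A - (2 : 𝕜) • B uplus) x, x⟫_𝕜

variable {𝕜 H : Type*} [RCLike 𝕜] [NormedAddCommGroup H] [InnerProductSpace 𝕜 H]
  [CompleteSpace H]

/-- The quadratic map `Q(u) = B(u, u)`. -/
def KineticData.Q (D : KineticData 𝕜 H) (u : H) : H := D.B u u

/-- A solution of `A u' = Q(u)` on `[0, ∞)` in the sense of the problem: `u` is strongly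
measurable and essentially bounded on `[0, ∞)`, `A u` is (has a representative `g` which is)
locally absolutely continuous on `[0, ∞)`, and `(A u)' = Q(u)` almost everywhere. -/
structure KineticData.IsSolution [NormedSpace ℝ H] (D : KineticData 𝕜 H) (u : ℝ → H) :
    Prop where
  /-- strong measurability on `[0, ∞)` -/
  measurable : AEStronglyMeasurable u (volume.restrict (Ici (0 : ℝ)))
  /-- essential boundedness on `[0, ∞)` -/
  bounded : ∃ M : ℝ, ∀ᵐ t ∂(volume.restrict (Ici (0 : ℝ))), ‖u t‖ ≤ M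
  /-- the equation -/
  equation : ∃ g : ℝ → H, (∀ T : ℝ, 0 ≤ T → AbsolutelyContinuousOnInterval g 0 T) ∧
    (∀ᵐ t ∂(volume.restrict (Ici (0 : ℝ))), g t = D.A (u t)) ∧
    ∀ᵐ t ∂(volume.restrict (Ici (0 : ℝ))), HasDerivAt g (D.Q (u t)) t

end Pool.Agent.Lib.MP_7e3c50_an
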