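import Mathlib
import Pool.Agent.Lib.MP_7e3c50_an.Core
import Pool.Agent.Lib.MP_7e3c50_an.Defs

set_option autoImplicit false

open MeasureTheory Set Filter Topology RCLike
open scoped InnerProductSpace ENNReal

namespace Pool.Agent.Lib.MP_7e3c50_an

variable {𝕜 H : Type*} [RCLike 𝕜] [NormedAddCommGroup H] [InnerProductSpace 𝕜 H]
  [CompleteSpace H]

section algebra

/-- `Q(x) - Q(y) = B(x + y, x - y)`. -/
lemma Q_sub (D : KineticData 𝕜 H) (x y : H) : D.Q x - D.Q y = D.B (x + y) (x - y) := by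
  simp only [KineticData.Q, map_sub, map_add, add_apply]
  rw [D.B_symm y x]
  abel

/-- The uniform dissipation inequality for pairs of states close to `u⁺` with the same
conserved quantity. -/
lemma dissipative (D : KineticData 𝕜 H) : ∃ ε : ℝ, 0 < ε ∧ ∃ m : ℝ, 0 < m ∧
    ∀ x y : H, ‖x - D.uplus‖ ≤ ε → ‖y - D.uplus‖ ≤ ε →
      D.Vᗮ.orthogonalProjectionOnto (D.A (x - y)) = 0 →
      re ⟪D.Q x - D.Q y, x - y⟫_𝕜 ≤ -m * ‖x - y‖ ^ 2 := by
  have := D.finite_perp
  have : CompleteSpace D.V := D.closed_V.completeSpace_coe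
  obtain ⟨δ, hδ, hT⟩ := D.negative_T
  -- (H5): lower bound for the compression
  set Φ : D.Vᗮ →ₗ[𝕜] D.Vᗮ :=
    ((D.Vᗮ.orthogonalProjectionOnto ∘L D.A ∘L D.Vᗮ.subtypeL : D.Vᗮ →L[𝕜] D.Vᗮ) :
      D.Vᗮ →ₗ[𝕜] D.Vᗮ) with hΦ
  have hΦinj : LinearMap.ker Φ = ⊥ := by
    rw [LinearMap.ker_eq_bot]
    exact D.bijective_block.1
  obtain ⟨κ, hκ0, hκ⟩ := Φ.exists_antilipschitzWith hΦinj
  have hκ' : ∀ x : D.Vᗮ, ‖(x : H)‖ ≤ κ * ‖D.Vᗮ.orthogonalProjectionOnto (D.A x)‖ := by
    intro x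
    have := hκ.le_mul_dist x 0
    simpa [hΦ] using this
  set C1 : ℝ := 1 + κ * ‖D.A‖ with hC1
  have hC1pos : 0 < C1 := by positivity
  -- decomposition
  have hcoer : ∀ z : H, D.Vᗮ.orthogonalProjectionOnto (D.A z) = 0 →
      ‖z‖ ≤ C1 * ‖D.V.starProjection z‖ := by
    intro z hz
    have hdec : z = D.V.starProjection z + D.Vᗮ.starProjection z :=
      (D.V.starProjection_add_starProjection_orthogonal z).symm
    set z0 : D.Vᗮ := D.Vᗮ.orthogonalProjectionOnto z with hz0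
    have hz0' : D.Vᗮ.starProjection z = (z0 : H) := rfl
    have h1 : D.Vᗮ.orthogonalProjectionOnto (D.A z0)
        = - D.Vᗮ.orthogonalProjectionOnto (D.A (D.V.starProjection z)) := by
      have h2 : D.Vᗮ.orthogonalProjectionOnto (D.A (D.V.starProjection z + (z0 : H))) = 0 := by
        rw [← hz0', ← hdec]; exact hz
      rw [map_add, map_add] at h2
      exact eq_neg_of_add_eq_zero_right h2
    have h3 : ‖D.Vᗮ.orthogonalProjectionOnto (D.A z0)‖ ≤ ‖D.A‖ * ‖D.V.starProjection z‖ := by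
      rw [h1, norm_neg]
      refine (D.Vᗮ.norm_orthogonalProjectionOnto_apply_le _).trans ?_
      exact D.A.le_opNorm _
    have h4 : ‖(z0 : H)‖ ≤ κ * (‖D.A‖ * ‖D.V.starProjection z‖) :=
      (hκ' z0).trans (mul_le_mul_of_nonneg_left h3 (by positivity))
    calc ‖z‖ = ‖D.V.starProjection z + (z0 : H)‖ := by rw [← hz0', ← hdec]
      _ ≤ ‖D.V.starProjection z‖ + ‖(z0 : H)‖ := norm_add_le _ _
      _ ≤ ‖D.V.starProjection z‖ + κ * (‖D.A‖ * ‖D.V.starProjection z‖) := by linarith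
      _ = C1 * ‖D.V.starProjection z‖ := by rw [hC1]; ring
  -- the linear part
  have hlin : ∀ z : H, D.Vᗮ.orthogonalProjectionOnto (D.A z) = 0 →
      re ⟪((2 : 𝕜) • D.B D.uplus) z, z⟫_𝕜 ≤ -(δ / C1 ^ 2) * ‖z‖ ^ 2 := by
    intro z hz
    have hdec : z = D.V.starProjection z + D.Vᗮ.starProjection z :=
      (D.V.starProjection_add_starProjection_orthogonal z).symm
    have h0 : ((2 : 𝕜) • D.B D.uplus) (D.Vᗮ.starProjection z) = 0 :=
      (D.ker_T _).2 (Submodule.starProjection_apply_mem _ _)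
    have h1 : ((2 : 𝕜) • D.B D.uplus) z = ((2 : 𝕜) • D.B D.uplus) (D.V.starProjection z) := by
      conv_lhs => rw [hdec]
      rw [map_add, h0, add_zero]
    have h2 : ⟪((2 : 𝕜) • D.B D.uplus) z, z⟫_𝕜
        = ⟪((2 : 𝕜) • D.B D.uplus) (D.V.starProjection z), D.V.starProjection z⟫_𝕜 := by
      rw [h1]
      conv_lhs => rw [hdec]
      rw [inner_add_right]
      have h3 : ((2 : 𝕜) • D.B D.uplus) (D.V.starProjection (D.V.starProjection z +
          D.Vᗮ.starProjection z)) ∈ D.V := D.V.smul_mem _ (D.B_mem _ _)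
      have h4 : D.Vᗮ.starProjection z ∈ D.Vᗮ := Submodule.starProjection_apply_mem _ _
      rw [(Submodule.mem_orthogonal _ _).1 h4 _ h3, add_zero, ← hdec]
    rw [h2]
    have h5 := hT _ (Submodule.starProjection_apply_mem D.V z)
    have h6 := hcoer z hz
    have h7 : ‖z‖ ^ 2 ≤ C1 ^ 2 * ‖D.V.starProjection z‖ ^ 2 := by
      rw [← mul_pow]; exact pow_le_pow_left₀ (norm_nonneg _) h6 2
    have h8 : δ / C1 ^ 2 * ‖z‖ ^ 2 ≤ δ * ‖D.V.starProjection z‖ ^ 2 := by
      calc δ / C1 ^ 2 * ‖z‖ ^ 2 ≤ δ / C1 ^ 2 * (C1 ^ 2 * ‖D.V.starProjection z‖ ^ 2) :=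
            mul_le_mul_of_nonneg_left h7 (by positivity)
        _ = _ := by field_simp
    linarith
  refine ⟨δ / (4 * C1 ^ 2 * (‖D.B‖ + 1)), by positivity, δ / (2 * C1 ^ 2), by positivity, ?_⟩
  intro x y hx hy hxy
  set z : H := x - y with hz
  have h1 : D.Q x - D.Q y = ((2 : 𝕜) • D.B D.uplus) z
      + D.B ((x - D.uplus) + (y - D.uplus)) z := by
    rw [Q_sub]
    have : x + y = (2 : 𝕜) • D.uplus + ((x - D.uplus) + (y - D.uplus)) := by
      rw [two_smul]; abel
    rw [this, map_add, add_apply, map_smul]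
  rw [h1, inner_add_left, map_add]
  have h2 := hlin z hxy
  have h3 : re ⟪D.B ((x - D.uplus) + (y - D.uplus)) z, z⟫_𝕜 ≤ δ / (2 * C1 ^ 2) * ‖z‖ ^ 2 := by
    have e1 : re ⟪D.B ((x - D.uplus) + (y - D.uplus)) z, z⟫_𝕜
        ≤ ‖D.B ((x - D.uplus) + (y - D.uplus)) z‖ * ‖z‖ :=
      (RCLike.re_le_norm _).trans (norm_inner_le_norm _ _)
    have e2 : ‖D.B ((x - D.uplus) + (y - D.uplus)) z‖
        ≤ ‖D.B‖ * ‖(x - D.uplus) + (y - D.uplus)‖ * ‖z‖ := D.B.le_opNorm₂ _ _
    have e3 : ‖(x - D.uplus) + (y - D.uplus)‖ ≤ δ / (2 * C1 ^ 2 * (‖D.B‖ + 1)) := by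
      refine (norm_add_le _ _).trans ?_
      have : δ / (2 * C1 ^ 2 * (‖D.B‖ + 1))
          = δ / (4 * C1 ^ 2 * (‖D.B‖ + 1)) + δ / (4 * C1 ^ 2 * (‖D.B‖ + 1)) := by
        field_simp; ring
      rw [this]
      exact add_le_add hx hy
    have e4 : ‖D.B‖ * (δ / (2 * C1 ^ 2 * (‖D.B‖ + 1))) ≤ δ / (2 * C1 ^ 2) := by
      have hB : 0 ≤ ‖D.B‖ := ContinuousLinearMap.opNorm_nonneg _
      rw [← mul_div_assoc, div_le_div_iff₀ (by positivity) (by positivity)]
      have : 0 < δ * (2 * C1 ^ 2) := by positivity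
      nlinarith
    have e5 : ‖D.B‖ * ‖(x - D.uplus) + (y - D.uplus)‖ ≤ δ / (2 * C1 ^ 2) :=
      (mul_le_mul_of_nonneg_left e3 (ContinuousLinearMap.opNorm_nonneg _)).trans e4
    calc re ⟪D.B ((x - D.uplus) + (y - D.uplus)) z, z⟫_𝕜
        ≤ ‖D.B ((x - D.uplus) + (y - D.uplus)) z‖ * ‖z‖ := e1
      _ ≤ (‖D.B‖ * ‖(x - D.uplus) + (y - D.uplus)‖ * ‖z‖) * ‖z‖ :=
          mul_le_mul_of_nonneg_right e2 (norm_nonneg _)
      _ ≤ (δ / (2 * C1 ^ 2) * ‖z‖) * ‖z‖ :=
          mul_le_mul_of_nonneg_right (mul_le_mul_of_nonneg_right e5 (norm_nonneg _))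
            (norm_nonneg _)
      _ = _ := by ring
  have h4 : δ / C1 ^ 2 = δ / (2 * C1 ^ 2) + δ / (2 * C1 ^ 2) := by field_simp; ring
  rw [h4] at h2
  linarith

/-- Arbitrarily close to `u⁺` there are other equilibria. -/
lemma nearby_equilibria (D : KineticData 𝕜 H) (η : ℝ) (hη : 0 < η) :
    ∃ v : H, v ≠ D.uplus ∧ ‖v - D.uplus‖ ≤ η ∧ D.Q v = 0 := by
  have : CompleteSpace D.V := D.closed_V.completeSpace_coe
  obtain ⟨δ, hδ, hT⟩ := D.negative_T
  set T : H →L[𝕜] H := (2 : 𝕜) • D.B D.uplus with hTdef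
  -- the range of `T` is `V`
  have hbelow : ∀ v : D.V, ‖v‖ ≤ (Real.toNNReal δ⁻¹ : ℝ) * ‖(T ∘L D.V.subtypeL) v‖ := by
    intro v
    rw [Real.coe_toNNReal _ (by positivity)]
    have h1 := hT (v : H) v.2
    have h2 : -re ⟪T (v : H), (v : H)⟫_𝕜 ≤ ‖T (v : H)‖ * ‖(v : H)‖ := by
      have h3 := norm_inner_le_norm (𝕜 := 𝕜) (T (v : H)) (v : H)
      have h4 := (abs_le.1 (RCLike.abs_re_le_norm ⟪T (v : H), (v : H)⟫_𝕜)).1
      linarith
    have h5 : δ * ‖(v : H)‖ ^ 2 ≤ ‖T (v : H)‖ * ‖(v : H)‖ := by linarith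
    have h6 : δ * ‖(v : H)‖ ≤ ‖T (v : H)‖ := by
      rcases (norm_nonneg (v : H)).eq_or_lt with h | h
      · rw [← h, mul_zero]; exact norm_nonneg _
      · have h7 : δ * ‖(v : H)‖ * ‖(v : H)‖ ≤ ‖T (v : H)‖ * ‖(v : H)‖ := by
          calc δ * ‖(v : H)‖ * ‖(v : H)‖ = δ * ‖(v : H)‖ ^ 2 := by ring
            _ ≤ _ := h5
        exact le_of_mul_le_mul_right h7 h
    change ‖(v : H)‖ ≤ δ⁻¹ * ‖T (v : H)‖
    rw [inv_mul_eq_div, le_div_iff₀ hδ]
    linarith
  have hclosed : IsClosed (Set.range (T ∘L D.V.subtypeL)) :=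
    ((T ∘L D.V.subtypeL).antilipschitz_of_bound hbelow).isClosed_range
      (T ∘L D.V.subtypeL).uniformContinuous
  have hkerT : ∀ x, T x = 0 ↔ x ∈ D.Vᗮ := D.ker_T
  have hrange : (T.range : Set H) = Set.range (T ∘L D.V.subtypeL) := by
    ext y
    constructor
    · rintro ⟨x, rfl⟩
      refine ⟨⟨D.V.starProjection x, Submodule.starProjection_apply_mem _ _⟩, ?_⟩
      have hdec : x = D.V.starProjection x + D.Vᗮ.starProjection x :=
        (D.V.starProjection_add_starProjection_orthogonal x).symm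
      have h0 : T (D.Vᗮ.starProjection x) = 0 :=
        (hkerT _).2 (Submodule.starProjection_apply_mem _ _)
      change T (D.V.starProjection x) = T x
      conv_rhs => rw [hdec]
      rw [map_add, h0, add_zero]
    · rintro ⟨v, rfl⟩
      exact ⟨(v : H), rfl⟩
  have hTV : ∀ v ∈ D.V, ∃ x, T x = v := by
    intro v hv
    have h1 : T.kerᗮ = (ContinuousLinearMap.adjoint T).range.topologicalClosure :=
      T.orthogonal_ker
    have h2 : ContinuousLinearMap.adjoint T = T := D.selfAdjoint_T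
    have h3 : T.ker = D.Vᗮ := by
      ext x; exact hkerT x
    rw [h2, h3, D.V.orthogonal_orthogonal] at h1
    have h4 : v ∈ T.range.topologicalClosure := h1 ▸ hv
    have h5 : (T.range.topologicalClosure : Set H) = T.range := by
      rw [Submodule.topologicalClosure_coe, hrange]
      exact hclosed.closure_eq
    have h6 : v ∈ (T.range : Set H) := h5 ▸ h4
    exact h6
  -- the map `Φ` and its derivative at `u⁺`
  set P : H →L[𝕜] H := D.Vᗮ.starProjection with hP
  set Φ : H → H := fun x => D.B x x + P (D.A (x - D.uplus)) with hΦ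
  set Ψ : H →L[𝕜] H := T + P ∘L D.A with hΨ
  have hΦd : HasStrictFDerivAt Φ Ψ D.uplus := by
    have h1 : HasStrictFDerivAt (fun x : H => D.B x x) T D.uplus := by
      have h2 : HasStrictFDerivAt (fun x : H => D.B x) D.B D.uplus := D.B.hasStrictFDerivAt
      have h3 := h2.clm_apply (hasStrictFDerivAt_id D.uplus)
      convert! h3 using 1
      ext x
      simp only [hTdef, two_smul, add_apply, ContinuousLinearMap.comp_apply,
        ContinuousLinearMap.flip_apply, id, ContinuousLinearMap.coe_id']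
      rw [D.B_symm x D.uplus]
    have h4 : HasStrictFDerivAt (fun x : H => P (D.A (x - D.uplus))) (P ∘L D.A) D.uplus := by
      have h5 : HasStrictFDerivAt (fun x : H => x - D.uplus) (ContinuousLinearMap.id 𝕜 H)
          D.uplus := (hasStrictFDerivAt_id D.uplus).sub_const _
      have h6 := (P ∘L D.A).hasStrictFDerivAt.comp D.uplus h5
      exact h6
    exact h1.add h4
  have hsurj : Ψ.range = ⊤ := by
    rw [LinearMap.range_eq_top]
    intro y
    have hdec : y = D.V.starProjection y + D.Vᗮ.starProjection y :=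
      (D.V.starProjection_add_starProjection_orthogonal y).symm
    obtain ⟨a, ha⟩ := hTV _ (Submodule.starProjection_apply_mem D.V y)
    obtain ⟨b, hb⟩ := D.bijective_block.2
      (D.Vᗮ.orthogonalProjectionOnto y - D.Vᗮ.orthogonalProjectionOnto (D.A a))
    refine ⟨a + b, ?_⟩
    have h1 : T (b : H) = 0 := (hkerT _).2 b.2
    have h2 : P (D.A (b : H)) = P y - P (D.A a) := congrArg (fun z : D.Vᗮ => (z : H)) hb
    change T (a + b) + P (D.A (a + b)) = y
    rw [map_add, map_add, map_add, h1, ha, h2]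
    conv_rhs => rw [hdec]
    abel
  have hmap := hΦd.map_nhds_eq_of_surj hsurj
  have hΦ0 : Φ D.uplus = 0 := by simp [hΦ, D.Q_uplus]
  -- a nonzero vector in the orthogonal complement of `V`
  obtain ⟨e, heV, he⟩ : ∃ e ∈ D.Vᗮ, e ≠ 0 := by
    have : D.Vᗮ ≠ ⊥ := by
      rw [Ne, Submodule.orthogonal_eq_bot_iff]
      exact D.proper_V
    exact Submodule.exists_mem_ne_zero_of_ne_bot this
  have hnb : Φ '' (Metric.closedBall D.uplus η) ∈ 𝓝 (0 : H) := by
    rw [← hΦ0, ← hmap]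
    exact image_mem_map (Metric.closedBall_mem_nhds _ hη)
  have hlim : Tendsto (fun n : ℕ => ((1 / ((n : ℝ) + 1) : ℝ) : 𝕜) • e) atTop (𝓝 0) := by
    have h1 : Tendsto (fun n : ℕ => ((1 / ((n : ℝ) + 1) : ℝ) : 𝕜)) atTop (𝓝 ((0:ℝ) : 𝕜)) :=
      (RCLike.continuous_ofReal.tendsto _).comp tendsto_one_div_add_atTop_nhds_zero_nat
    have h2 := h1.smul_const e
    simpa using h2
  obtain ⟨n, hn⟩ := (hlim.eventually hnb).exists
  obtain ⟨v, hv1, hv2⟩ := hn
  set r : 𝕜 := ((1 / ((n : ℝ) + 1) : ℝ) : 𝕜) with hr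
  have hr0 : r ≠ 0 := by
    rw [hr, Ne, RCLike.ofReal_eq_zero]
    positivity
  -- projections of the equation
  have h1 : D.B v v = 0 := by
    have h2 : D.V.starProjection (Φ v) = 0 := by
      rw [hv2]
      exact (Submodule.starProjection_apply_eq_zero_iff _).2 (D.Vᗮ.smul_mem _ heV)
    have h3 : D.V.starProjection (P (D.A (v - D.uplus))) = 0 :=
      (Submodule.starProjection_apply_eq_zero_iff _).2 (Submodule.starProjection_apply_mem _ _)
    have h4 : D.V.starProjection (D.B v v) = D.B v v :=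
      Submodule.starProjection_eq_self_iff.2 (D.B_mem _ _)
    simp only [hΦ] at h2
    rw [map_add, h3, add_zero, h4] at h2
    exact h2
  refine ⟨v, ?_, ?_, h1⟩
  · intro hvp
    rw [hvp, hΦ0] at hv2
    have := hv2.symm
    rw [smul_eq_zero] at this
    rcases this with h | h
    · exact hr0 h
    · exact he h
  · simpa [dist_eq_norm] using hv1

end algebra

section main

variable [NormedSpace ℝ H]

omit [CompleteSpace H] in
lemma absolutelyContinuous_const (v : H) (a b : ℝ) :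
    AbsolutelyContinuousOnInterval (fun _ : ℝ => v) a b := by
  have : LipschitzOnWith 0 (fun _ : ℝ => v) (uIcc a b) := LipschitzWith.const v |>.lipschitzOnWith
  exact this.absolutelyContinuousOnInterval

/-- Equilibria are constant solutions. -/
lemma const_isSolution (D : KineticData 𝕜 H) {v : H} (hv : D.Q v = 0) :
    D.IsSolution (fun _ => v) where
  measurable := aestronglyMeasurable_const
  bounded := ⟨‖v‖, Eventually.of_forall fun _ => le_rfl⟩
  equation := by
    refine ⟨fun _ => D.A v, fun T _ => absolutelyContinuous_const _ _ _,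
      Eventually.of_forall fun _ => rfl, Eventually.of_forall fun t => ?_⟩
    rw [hv]
    exact hasDerivAt_const t (D.A v)

/-- Exponential bounds in integer form give exponential bounds. -/
lemma exp_of_pow {E : Type*} [NormedAddCommGroup E] {w : ℝ → E} {winf : E} {M K ρ β : ℝ}
    (hρ0 : 0 < ρ) (hρ1 : ρ < 1) (hβ : β = -Real.log ρ) (hK : 0 ≤ K) (hM : ∀ t, ‖w t‖ ≤ M)
    (h : ∀ n : ℕ, ∀ᵐ t, 3 + (n:ℝ) ≤ t → ‖w t - winf‖ ≤ K * ρ ^ n) :
    ∃ C : ℝ, 0 ≤ C ∧ ∀ᵐ t, 0 ≤ t → ‖w t - winf‖ ≤ C * Real.exp (-β * t) := by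
  have hM0 : 0 ≤ M := (norm_nonneg _).trans (hM 0)
  have hβ0 : 0 < β := by rw [hβ]; linarith [Real.log_neg hρ0 hρ1]
  have hexp : ∀ n : ℕ, ρ ^ n = Real.exp (-β * n) := by
    intro n
    have : -β * n = n * Real.log ρ := by rw [hβ]; ring
    rw [this, Real.exp_nat_mul, Real.exp_log hρ0]
  refine ⟨K * Real.exp (4 * β) + (M + ‖winf‖) * Real.exp (3 * β), by positivity, ?_⟩
  filter_upwards [ae_all_iff.2 h] with t ht ht0
  rcases le_total 3 t with h3 | h3
  · have h1 : 3 + ((⌊t - 3⌋₊ : ℕ) : ℝ) ≤ t := by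
      have := Nat.floor_le (show 0 ≤ t - 3 by linarith)
      linarith
    have h2 := ht _ h1
    have h4 : t - 4 < ((⌊t - 3⌋₊ : ℕ) : ℝ) := by
      have := Nat.lt_floor_add_one (t - 3)
      linarith
    rw [hexp] at h2
    have h5 : Real.exp (-β * ((⌊t - 3⌋₊ : ℕ) : ℝ)) ≤ Real.exp (4 * β) * Real.exp (-β * t) := by
      rw [← Real.exp_add]
      apply Real.exp_le_exp.2
      nlinarith
    have h6 : 0 ≤ (M + ‖winf‖) * Real.exp (3 * β) * Real.exp (-β * t) := by positivity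
    rw [add_mul]
    calc ‖w t - winf‖ ≤ K * Real.exp (-β * ((⌊t - 3⌋₊ : ℕ) : ℝ)) := h2
      _ ≤ K * (Real.exp (4 * β) * Real.exp (-β * t)) := mul_le_mul_of_nonneg_left h5 hK
      _ = K * Real.exp (4 * β) * Real.exp (-β * t) := by ring
      _ ≤ _ := by linarith
  · have h1 : ‖w t - winf‖ ≤ M + ‖winf‖ := (norm_sub_le _ _).trans (by linarith [hM t])
    have h2 : 1 ≤ Real.exp (3 * β) * Real.exp (-β * t) := by
      rw [← Real.exp_add]
      apply Real.one_le_exp
      nlinarith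
    have h3 : 0 ≤ K * Real.exp (4 * β) * Real.exp (-β * t) := by positivity
    rw [add_mul]
    have h4 : 0 ≤ M + ‖winf‖ := by positivity
    calc ‖w t - winf‖ ≤ (M + ‖winf‖) * 1 := by linarith
      _ ≤ (M + ‖winf‖) * (Real.exp (3 * β) * Real.exp (-β * t)) :=
          mul_le_mul_of_nonneg_left h2 h4
      _ = (M + ‖winf‖) * Real.exp (3 * β) * Real.exp (-β * t) := by ring
      _ ≤ _ := by linarith

/-- A bounded everywhere-defined modification of a small solution, in integrated form. -/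
lemma exists_modification (D : KineticData 𝕜 H) {u : ℝ → H} {ε : ℝ} (hε : 0 < ε)
    (hu : D.IsSolution u)
    (hsmall : ∀ᵐ t ∂(volume.restrict (Ici (0 : ℝ))), ‖u t - D.uplus‖ ≤ ε) :
    ∃ (w g : ℝ → H) (L : ℝ), AEStronglyMeasurable w volume ∧ (∀ t, ‖w t - D.uplus‖ ≤ ε) ∧
      AEStronglyMeasurable (fun t => D.Q (w t)) volume ∧ (∀ t, ‖D.Q (w t)‖ ≤ L) ∧
      (∀ t, g t = g 0 + ∫ s in (0:ℝ)..t, D.Q (w s)) ∧
      (∀ᵐ t, 0 ≤ t → g t = D.A (w t)) ∧
      (∀ᵐ t ∂(volume.restrict (Ici (0 : ℝ))), u t = w t) := by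
  obtain ⟨g, hgac, hgA, hgd⟩ := hu.equation
  set v : ℝ → H := hu.measurable.mk u with hv
  have hvm : StronglyMeasurable v := hu.measurable.stronglyMeasurable_mk
  have huv : ∀ᵐ t ∂(volume.restrict (Ici (0 : ℝ))), u t = v t := hu.measurable.ae_eq_mk
  set s : Set ℝ := {t | 0 ≤ t ∧ ‖v t - D.uplus‖ ≤ ε} with hs
  have hsm : MeasurableSet s := by
    have h1 : MeasurableSet {t : ℝ | ‖v t - D.uplus‖ ≤ ε} :=
      ((hvm.sub stronglyMeasurable_const).norm).measurable measurableSet_Iic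
    exact measurableSet_Ici.inter h1
  classical
  set w : ℝ → H := s.piecewise v (fun _ => D.uplus) with hw
  have hwm : StronglyMeasurable w := hvm.piecewise hsm stronglyMeasurable_const
  have hwε : ∀ t, ‖w t - D.uplus‖ ≤ ε := by
    intro t
    by_cases ht : t ∈ s
    · rw [hw, piecewise_eq_of_mem _ _ _ ht]; exact ht.2
    · rw [hw, piecewise_eq_of_notMem _ _ _ ht]; simpa using hε.le
  have huw : ∀ᵐ t ∂(volume.restrict (Ici (0 : ℝ))), u t = w t := by
    have h0 : ∀ᵐ t ∂(volume.restrict (Ici (0 : ℝ))), t ∈ Ici (0 : ℝ) :=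
      ae_restrict_mem measurableSet_Ici
    filter_upwards [huv, hsmall, h0] with t ht1 ht2 ht3
    have : t ∈ s := ⟨ht3, by rw [← ht1]; exact ht2⟩
    rw [hw, piecewise_eq_of_mem _ _ _ this]; exact ht1
  have hQc : Continuous D.Q := by
    have : Continuous fun u : H => D.B u u := by fun_prop
    exact this
  have hfm : AEStronglyMeasurable (fun t => D.Q (w t)) volume :=
    (hQc.comp_stronglyMeasurable hwm).aestronglyMeasurable
  set R : ℝ := ‖D.uplus‖ + ε with hR
  have hwR : ∀ t, ‖w t‖ ≤ R := by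
    intro t
    have h1 : ‖w t‖ ≤ ‖w t - D.uplus‖ + ‖D.uplus‖ := by
      simpa using norm_add_le (w t - D.uplus) D.uplus
    linarith [hwε t]
  have hB0 : 0 ≤ ‖D.B‖ := ContinuousLinearMap.opNorm_nonneg _
  have hR0 : 0 ≤ R := by positivity
  have hfL : ∀ t, ‖D.Q (w t)‖ ≤ ‖D.B‖ * R * R := by
    intro t
    refine (D.B.le_opNorm₂ _ _).trans ?_
    have h1 : ‖D.B‖ * ‖w t‖ ≤ ‖D.B‖ * R := mul_le_mul_of_nonneg_left (hwR t) hB0
    exact mul_le_mul h1 (hwR t) (norm_nonneg _) (by positivity)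
  have hfi := fun a b => Pool.Agent.Lib.MP_7e3c50_an.intInt_of_bdd hfm hfL a b
  -- the integrated equation
  have hgint : ∀ t, 0 ≤ t → g t = g 0 + ∫ s in (0:ℝ)..t, D.Q (w s) := by
    intro T hT
    set I : ℝ → H := fun t => ∫ s in (0:ℝ)..t, D.Q (w s) with hI
    have hIlip : LipschitzOnWith (Real.toNNReal (‖D.B‖ * R * R)) I (uIcc 0 T) := by
      apply LipschitzOnWith.of_dist_le_mul
      intro x _ y _
      rw [dist_eq_norm, Real.coe_toNNReal _ (by positivity), Real.dist_eq]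
      have : I x - I y = ∫ r in y..x, D.Q (w r) :=
        intervalIntegral.integral_interval_sub_left (hfi _ _) (hfi _ _)
      rw [this]
      exact intervalIntegral.norm_integral_le_of_norm_le_const (fun r _ => hfL r)
    have hIac : AbsolutelyContinuousOnInterval I 0 T := hIlip.absolutelyContinuousOnInterval
    have hac : AbsolutelyContinuousOnInterval (fun t => g t - I t) 0 T := (hgac T hT).sub hIac
    have hId := _root_.LocallyIntegrable.ae_hasDerivAt_integral
      (Pool.Agent.Lib.MP_7e3c50_an.locInt_of_bdd hfm hfL)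
    have hder : ∀ᵐ x, x ∈ uIcc 0 T → HasDerivAt (fun t => g t - I t) 0 x := by
      rw [ae_restrict_iff' measurableSet_Ici] at hgd huw
      filter_upwards [hgd, huw, hId] with x hx1 hx2 hx3 hx
      rw [uIcc_of_le hT] at hx
      have h1 := hx1 hx.1
      rw [hx2 hx.1] at h1
      have h4 := h1.sub (hx3 0)
      rw [sub_self] at h4
      exact h4
    obtain ⟨c, hc⟩ := hac.const_of_ae_hasDerivAt_zero hder
    have h1 := hc T (by simp)
    have h2 := hc 0 (by simp)
    have h3 : I 0 = 0 := by simp [hI]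
    simp only [h3, sub_zero] at h2
    rw [h2, ← h1]
    abel
  refine ⟨w, fun t => g 0 + ∫ s in (0:ℝ)..t, D.Q (w s), ‖D.B‖ * R * R, hwm.aestronglyMeasurable,
    hwε, hfm, hfL, ?_, ?_, huw⟩
  · intro t; simp
  · rw [ae_restrict_iff' measurableSet_Ici] at hgA huw
    filter_upwards [hgA, huw] with t ht1 ht2 ht0
    rw [← hgint t ht0, ht1 ht0, ht2 ht0]

variable [IsScalarTower ℝ 𝕜 H]

/-- Auxiliary form of the positive part of the main theorem. For all data satisfying (H1), (H3), (H4), (H5) there are `ε > 0` and `β > 0`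
such that every solution `u` of `A u' = Q(u)` on `[0, ∞)` with `ess sup ‖u - u⁺‖ ≤ ε` converges
pointwise exponentially, at rate `β`, to an equilibrium `u∞` with `‖u∞ - u⁺‖ ≤ ε`; moreover
`u∞ = u⁺`, that is `u - u⁺` itself decays exponentially, exactly when `u - u⁺` is square
integrable, and exactly when the conserved quantity `P A (u - u⁺)` vanishes, `P` being the
orthogonal projection onto the orthogonal complement of `V`. -/
theorem main_positive (D : KineticData 𝕜 H) :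
    ∃ ε : ℝ, 0 < ε ∧ ∃ β : ℝ, 0 < β ∧ ∀ u : ℝ → H, D.IsSolution u →
      (∀ᵐ t ∂(volume.restrict (Ici (0 : ℝ))), ‖u t - D.uplus‖ ≤ ε) →
      ∃ uinf : H, D.Q uinf = 0 ∧ ‖uinf - D.uplus‖ ≤ ε ∧
        (∃ C : ℝ, ∀ᵐ t ∂(volume.restrict (Ici (0 : ℝ))),
          ‖u t - uinf‖ ≤ C * Real.exp (-β * t)) ∧
        (uinf = D.uplus ↔ MemLp (fun t => u t - D.uplus) 2 (volume.restrict (Ici (0 : ℝ)))) ∧
        (uinf = D.uplus ↔ ∀ᵐ t ∂(volume.restrict (Ici (0 : ℝ))),
          D.Vᗮ.orthogonalProjectionOnto (D.A (u t - D.uplus)) = 0) := by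
  have : CompleteSpace D.V := D.closed_V.completeSpace_coe
  obtain ⟨ε, hε, m, hm, hdiss⟩ := dissipative D
  set c : ℝ := (2 * m)⁻¹ * (‖D.A‖ + 1) with hc
  have hc0 : 0 < c := by positivity
  set θ : ℝ := c / (1 + c) with hθ
  have hθ0 : 0 < θ := by positivity
  have hθ1 : θ < 1 := by rw [hθ, div_lt_one (by positivity)]; linarith
  obtain ⟨ρ, hρ0', hρ⟩ : ∃ y : ℝ, 0 ≤ y ∧ y ^ 8 = θ :=
    ⟨_, Real.rpow_nonneg hθ0.le ((8:ℕ):ℝ)⁻¹, Real.rpow_inv_natCast_pow hθ0.le (by norm_num)⟩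
  have hρ0 : 0 < ρ := by
    rcases hρ0'.eq_or_lt with h | h
    · rw [← h] at hρ; norm_num at hρ; linarith
    · exact h
  have hρ1 : ρ < 1 := by
    by_contra hcon
    push Not at hcon
    have : (1:ℝ) ≤ ρ ^ 8 := one_le_pow₀ hcon
    rw [hρ] at this
    linarith
  set β : ℝ := -Real.log ρ with hβ
  have hβ0 : 0 < β := by rw [hβ]; linarith [Real.log_neg hρ0 hρ1]
  refine ⟨ε, hε, β, hβ0, ?_⟩
  intro u hu hsmall
  obtain ⟨w, g, L, hwm, hwε, hfm, hfL, hg, hgA, huw⟩ := exists_modification D hε hu hsmall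
  have hA : ∀ x y, ⟪D.A x, y⟫_𝕜 = ⟪x, D.A y⟫_𝕜 := by
    intro x y
    exact (ContinuousLinearMap.isSelfAdjoint_iff_isSymmetric.1 D.selfAdjoint_A) x y
  have hwR : ∀ t, ‖w t‖ ≤ ‖D.uplus‖ + ε := by
    intro t
    have h1 : ‖w t‖ ≤ ‖w t - D.uplus‖ + ‖D.uplus‖ := by
      simpa using norm_add_le (w t - D.uplus) D.uplus
    linarith [hwε t]
  have hfi := fun a b => Pool.Agent.Lib.MP_7e3c50_an.intInt_of_bdd hfm hfL a b
  have hgsub : ∀ s t, g t - g s = ∫ r in s..t, D.Q (w r) := by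
    intro s t
    rw [hg t, hg s, add_sub_add_left_eq_sub]
    exact intervalIntegral.integral_interval_sub_left (hfi _ _) (hfi _ _)
  -- the conserved quantity
  have hPg : ∀ s t, D.Vᗮ.orthogonalProjectionOnto (g t - g s) = 0 := by
    intro s t
    rw [hgsub]
    have h1 : D.Vᗮ.orthogonalProjectionOnto (∫ r in s..t, D.Q (w r))
        = ∫ r in s..t, D.Vᗮ.orthogonalProjectionOnto (D.Q (w r)) := by
      have := (D.Vᗮ.orthogonalProjectionOnto.restrictScalars ℝ).intervalIntegral_comp_comm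
        (hfi s t)
      simpa using this.symm
    rw [h1]
    have h2 : ∀ r, D.Vᗮ.orthogonalProjectionOnto (D.Q (w r)) = 0 := by
      intro r
      exact Submodule.orthogonalProjectionOnto_orthogonal_apply_eq_zero (D.B_mem _ _)
    simp [h2]
  have hshift_ae : ∀ h : ℝ, ∀ {p : ℝ → Prop}, (∀ᵐ t, p t) → ∀ᵐ t, p (t + h) := by
    intro h p hp
    exact (measurePreserving_add_right volume h).quasiMeasurePreserving.ae hp
  have hdis : ∀ h, 0 < h → ∀ᵐ t, 0 ≤ t →
      re ⟪D.Q (w (t + h)) - D.Q (w t), w (t + h) - w t⟫_𝕜 ≤ -m * ‖w (t + h) - w t‖ ^ 2 := by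
    intro h hh
    filter_upwards [hgA, hshift_ae h hgA] with t ht1 ht2 ht0
    apply hdiss _ _ (hwε _) (hwε _)
    rw [map_sub, ← ht1 ht0, ← ht2 (by linarith)]
    exact hPg _ _
  obtain ⟨uinf, K, hK0, hK⟩ := Pool.Agent.Lib.MP_7e3c50_an.exists_limit D.A hA hm hc hθ hρ0 hρ
    hwm hwR hfm hfL hg hgA hdis
  obtain ⟨C, hC0, hC⟩ := exp_of_pow hρ0 hρ1 hβ hK0 hwR hK
  -- times with good properties
  have hgood : ∀ n : ℕ, ∃ t, 3 + (n:ℝ) ≤ t ∧ ‖w t - uinf‖ ≤ K * ρ ^ n ∧
      ‖w (t + 1) - uinf‖ ≤ K * ρ ^ n ∧ g t = D.A (w t) ∧ g (t + 1) = D.A (w (t + 1)) := by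
    intro n
    have h1 : ∀ᵐ t, 3 + (n:ℝ) ≤ t → (‖w t - uinf‖ ≤ K * ρ ^ n ∧
      ‖w (t + 1) - uinf‖ ≤ K * ρ ^ n ∧ g t = D.A (w t) ∧ g (t + 1) = D.A (w (t + 1))) := by
      filter_upwards [hK n, hshift_ae 1 (hK n), hgA, hshift_ae 1 hgA] with t h1 h2 h3 h4 ht
      have h0 : 0 ≤ t := le_trans (by positivity) ht
      exact ⟨h1 ht, h2 (by linarith), h3 h0, h4 (by linarith)⟩
    obtain ⟨t, ht1, ht2⟩ := (Measure.dense_of_ae h1).exists_mem_open
      (isOpen_Ioi (a := 3 + (n:ℝ))) ⟨3 + n + 1, by simp⟩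
    exact ⟨t, ht2.le, ht1 ht2.le⟩
  choose τ hτ1 hτ2 hτ3 hτ4 hτ5 using hgood
  have hρlim : Tendsto (fun n : ℕ => K * ρ ^ n) atTop (𝓝 0) := by
    have := (tendsto_pow_atTop_nhds_zero_of_lt_one hρ0.le hρ1).const_mul K
    simpa using this
  have hwlim : Tendsto (fun n => w (τ n)) atTop (𝓝 uinf) := by
    rw [tendsto_iff_norm_sub_tendsto_zero]
    exact squeeze_zero (fun n => norm_nonneg _) hτ2 hρlim
  have hwlim1 : Tendsto (fun n => w (τ n + 1)) atTop (𝓝 uinf) := by
    rw [tendsto_iff_norm_sub_tendsto_zero]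
    exact squeeze_zero (fun n => norm_nonneg _) hτ3 hρlim
  have hnear : ‖uinf - D.uplus‖ ≤ ε := by
    have h1 : Tendsto (fun n => ‖w (τ n) - D.uplus‖) atTop (𝓝 ‖uinf - D.uplus‖) :=
      (hwlim.sub tendsto_const_nhds).norm
    exact le_of_tendsto h1 (Eventually.of_forall fun n => hwε _)
  -- the limit is an equilibrium
  have hQinf : D.Q uinf = 0 := by
    have h1 : Tendsto (fun n => g (τ n + 1) - g (τ n)) atTop (𝓝 0) := by
      have h2 : Tendsto (fun n => D.A (w (τ n + 1)) - D.A (w (τ n))) atTop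
          (𝓝 (D.A uinf - D.A uinf)) :=
        ((D.A.continuous.tendsto _).comp hwlim1).sub ((D.A.continuous.tendsto _).comp hwlim)
      rw [sub_self] at h2
      refine h2.congr fun n => ?_
      rw [hτ4, hτ5]
    have h2 : Tendsto (fun n => g (τ n + 1) - g (τ n)) atTop (𝓝 (D.Q uinf)) := by
      rw [tendsto_iff_norm_sub_tendsto_zero]
      set R : ℝ := ‖D.uplus‖ + ε with hR
      have hR0 : 0 ≤ R := by positivity
      have h3 : ∀ n, ‖(g (τ n + 1) - g (τ n)) - D.Q uinf‖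
          ≤ (‖D.B‖ * (R + ‖uinf‖)) * (K * ρ ^ n) := by
        intro n
        have e1 : (g (τ n + 1) - g (τ n)) - D.Q uinf
            = ∫ r in (τ n)..(τ n + 1), (D.Q (w r) - D.Q uinf) := by
          rw [intervalIntegral.integral_sub (hfi _ _) intervalIntegrable_const, ← hgsub,
            intervalIntegral.integral_const]
          simp
        rw [e1]
        have e2 : ∀ᵐ r, r ∈ uIoc (τ n) (τ n + 1) →
            ‖D.Q (w r) - D.Q uinf‖ ≤ (‖D.B‖ * (R + ‖uinf‖)) * (K * ρ ^ n) := by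
          filter_upwards [hK n] with r hr hr'
          rw [uIoc_of_le (by linarith)] at hr'
          have e3 := hr ((hτ1 n).trans hr'.1.le)
          rw [Q_sub]
          refine (D.B.le_opNorm₂ _ _).trans ?_
          have e4 : ‖w r + uinf‖ ≤ R + ‖uinf‖ := (norm_add_le _ _).trans (by linarith [hwR r])
          have hB0 : 0 ≤ ‖D.B‖ := ContinuousLinearMap.opNorm_nonneg _
          exact mul_le_mul (mul_le_mul_of_nonneg_left e4 hB0) e3 (norm_nonneg _)
            (mul_nonneg hB0 (by positivity))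
        have e5 := intervalIntegral.norm_integral_le_of_norm_le_const_ae e2
        simpa using e5
      refine squeeze_zero (fun n => norm_nonneg _) h3 ?_
      have := hρlim.const_mul (‖D.B‖ * (R + ‖uinf‖))
      simpa using this
    exact tendsto_nhds_unique h2 h1
  -- the exponential bound for `u`
  have hbound : ∀ᵐ t ∂(volume.restrict (Ici (0 : ℝ))), ‖u t - uinf‖ ≤ C * Real.exp (-β * t) := by
    have h1 : ∀ᵐ t ∂(volume.restrict (Ici (0 : ℝ))), ‖w t - uinf‖ ≤ C * Real.exp (-β * t) := by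
      rw [ae_restrict_iff' measurableSet_Ici]
      filter_upwards [hC] with t ht ht0
      exact ht ht0
    filter_upwards [h1, huw] with t ht1 ht2
    rw [ht2]; exact ht1
  have hum : AEStronglyMeasurable u (volume.restrict (Ici (0 : ℝ))) := hu.measurable
  have hL2 : MemLp (fun t => u t - uinf) 2 (volume.restrict (Ici (0 : ℝ))) := by
    have hexp : MemLp (fun t : ℝ => C * Real.exp (-β * t)) 2 (volume.restrict (Ici (0 : ℝ))) := by
      have hc1 : Continuous fun t : ℝ => C * Real.exp (-β * t) := by fun_prop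
      rw [memLp_two_iff_integrable_sq hc1.aestronglyMeasurable]
      have h1 : IntegrableOn (fun t : ℝ => Real.exp (-(2 * β) * t)) (Ioi 0) :=
        exp_neg_integrableOn_Ioi 0 (by positivity)
      have h2 : IntegrableOn (fun t : ℝ => Real.exp (-(2 * β) * t)) (Ici 0) :=
        Iff.mpr integrableOn_Ici_iff_integrableOn_Ioi h1
      have h3 : (fun t : ℝ => (C * Real.exp (-β * t)) ^ 2)
          = fun t => C ^ 2 * Real.exp (-(2 * β) * t) := by
        funext t
        rw [mul_pow, ← Real.exp_nat_mul]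
        congr 2
        push_cast
        ring
      rw [h3]
      exact h2.const_mul _
    refine hexp.mono' (hum.sub aestronglyMeasurable_const) ?_
    exact hbound
  refine ⟨uinf, hQinf, hnear, ⟨C, hbound⟩, ⟨?_, ?_⟩, ⟨?_, ?_⟩⟩
  · intro h
    rw [← h]; exact hL2
  · intro h
    have h1 : MemLp (fun _ : ℝ => uinf - D.uplus) 2 (volume.restrict (Ici (0 : ℝ))) := by
      have := h.sub hL2
      refine this.ae_eq (Eventually.of_forall fun t => ?_)
      simp
    rw [memLp_const_iff (by norm_num) (by norm_num)] at h1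
    rcases h1 with h1 | h1
    · exact sub_eq_zero.1 h1
    · simp at h1
  · intro h
    -- the conserved quantity equals its limit
    have h1 : ∀ᵐ t ∂(volume.restrict (Ici (0 : ℝ))), g t = D.A (u t) := by
      rw [ae_restrict_iff' measurableSet_Ici] at huw ⊢
      filter_upwards [huw, hgA] with t ht1 ht2 ht0
      rw [ht1 ht0, ht2 ht0]
    have h2 : ∀ n t, D.Vᗮ.orthogonalProjectionOnto (g t)
        = D.Vᗮ.orthogonalProjectionOnto (D.A (w (τ n))) := by
      intro n t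
      rw [← hτ4 n, ← sub_eq_zero, ← map_sub]
      exact hPg _ _
    have h3 : ∀ t, D.Vᗮ.orthogonalProjectionOnto (g t)
        = D.Vᗮ.orthogonalProjectionOnto (D.A D.uplus) := by
      intro t
      have h4 : Tendsto (fun n => D.Vᗮ.orthogonalProjectionOnto (D.A (w (τ n)))) atTop
          (𝓝 (D.Vᗮ.orthogonalProjectionOnto (D.A uinf))) :=
        (D.Vᗮ.orthogonalProjectionOnto.continuous.tendsto _).comp
          ((D.A.continuous.tendsto _).comp hwlim)
      have h5 : Tendsto (fun n => D.Vᗮ.orthogonalProjectionOnto (D.A (w (τ n)))) atTop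
          (𝓝 (D.Vᗮ.orthogonalProjectionOnto (g t))) := by
        refine tendsto_const_nhds.congr fun n => ?_
        rw [h2 n t]
      rw [← h, ← tendsto_nhds_unique h5 h4]
    filter_upwards [h1] with t ht
    rw [map_sub, ← ht, map_sub, h3, sub_self]
  · intro h
    have h1 : D.Vᗮ.orthogonalProjectionOnto (D.A (uinf - D.uplus)) = 0 := by
      have h2 : ∀ᵐ t, 0 ≤ t → D.Vᗮ.orthogonalProjectionOnto (g t - D.A D.uplus) = 0 := by
        rw [ae_restrict_iff' measurableSet_Ici] at h huw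
        filter_upwards [h, huw, hgA] with t ht1 ht2 ht3 ht0
        have := ht1 ht0
        rw [ht2 ht0, map_sub, ← ht3 ht0] at this
        exact this
      obtain ⟨t, ht1, ht2⟩ := (Measure.dense_of_ae h2).exists_mem_open
        (isOpen_Ioi (a := (0:ℝ))) ⟨1, by simp⟩
      have h3 : D.Vᗮ.orthogonalProjectionOnto (g t - D.A D.uplus) = 0 := ht1 ht2.le
      have h4 : ∀ n, D.Vᗮ.orthogonalProjectionOnto (D.A (w (τ n) - D.uplus)) = 0 := by
        intro n
        have h5 := hPg t (τ n)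
        rw [map_sub, ← hτ4 n]
        have h6 : g (τ n) - D.A D.uplus = (g (τ n) - g t) + (g t - D.A D.uplus) := by abel
        rw [h6, map_add, h5, h3, add_zero]
      have h7 : Tendsto (fun n => D.Vᗮ.orthogonalProjectionOnto (D.A (w (τ n) - D.uplus))) atTop
          (𝓝 (D.Vᗮ.orthogonalProjectionOnto (D.A (uinf - D.uplus)))) :=
        (D.Vᗮ.orthogonalProjectionOnto.continuous.tendsto _).comp
          ((D.A.continuous.tendsto _).comp (hwlim.sub tendsto_const_nhds))
      simp_rw [h4] at h7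
      exact (tendsto_nhds_unique tendsto_const_nhds h7).symm
    have h2 := hdiss uinf D.uplus hnear (by simpa using hε.le) h1
    have h3 : D.Q D.uplus = 0 := D.Q_uplus
    rw [hQinf, h3, sub_self, inner_zero_left, map_zero] at h2
    have h4 : ‖uinf - D.uplus‖ ^ 2 ≤ 0 := by
      by_contra hcon
      push Not at hcon
      nlinarith
    have h5 : ‖uinf - D.uplus‖ = 0 := by
      have := pow_nonneg (norm_nonneg (uinf - D.uplus)) 2
      exact pow_eq_zero_iff (two_ne_zero) |>.1 (le_antisymm h4 this)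
    exact sub_eq_zero.1 (norm_eq_zero.1 h5)

/-- **Main theorem.** Let `D = (A, B, V, u⁺)` be data satisfying (H1), (H3), (H4), (H5).

Part 1. There are `ε > 0` and `β > 0` such that every solution `u` of `A u' = Q(u)` on `[0, ∞)`
with `ess sup ‖u - u⁺‖ ≤ ε` converges pointwise exponentially, `‖u(t) - u∞‖ ≤ C exp(-β t)` for
almost every `t ≥ 0`, to some equilibrium `u∞` (`Q(u∞) = 0`) with `‖u∞ - u⁺‖ ≤ ε`. Moreover
`u∞ = u⁺`, that is `w = u - u⁺` itself decays pointwise exponentially, exactly when `w` is square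
integrable on `[0, ∞)`, and exactly when the conserved quantity `P A w` vanishes, `P` being the
orthogonal projection onto the orthogonal complement of `V`.

Part 2. The limit `u∞` need not be `u⁺`: arbitrarily close to `u⁺` there are constant solutions
`u = v` with `v ≠ u⁺`. -/
theorem main_theorem (D : KineticData 𝕜 H) :
    (∃ ε : ℝ, 0 < ε ∧ ∃ β : ℝ, 0 < β ∧ ∀ u : ℝ → H, D.IsSolution u →
      (∀ᵐ t ∂(volume.restrict (Ici (0 : ℝ))), ‖u t - D.uplus‖ ≤ ε) →
      ∃ uinf : H, D.Q uinf = 0 ∧ ‖uinf - D.uplus‖ ≤ ε ∧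
        (∃ C : ℝ, ∀ᵐ t ∂(volume.restrict (Ici (0 : ℝ))),
          ‖u t - uinf‖ ≤ C * Real.exp (-β * t)) ∧
        (uinf = D.uplus ↔ MemLp (fun t => u t - D.uplus) 2 (volume.restrict (Ici (0 : ℝ)))) ∧
        (uinf = D.uplus ↔ ∀ᵐ t ∂(volume.restrict (Ici (0 : ℝ))),
          D.Vᗮ.orthogonalProjectionOnto (D.A (u t - D.uplus)) = 0)) ∧
    (∀ η : ℝ, 0 < η → ∃ v : H, v ≠ D.uplus ∧ ‖v - D.uplus‖ ≤ η ∧
      D.IsSolution (fun _ => v)) := by
  refine ⟨main_positive D, fun η hη => ?_⟩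
  obtain ⟨v, hv1, hv2, hv3⟩ := nearby_equilibria D η hη
  exact ⟨v, hv1, hv2, const_isSolution D hv3⟩

end main

end Pool.Agent.Lib.MP_7e3c50_an
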